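import Mathlib

set_option autoImplicit false

open MeasureTheory Set Filter Topology Real

namespace Pool.Helper490.Sech

/-- The one-particle optimiser. -/
noncomputable def w (x : ℝ) : ℝ := (√(cosh x))⁻¹

/-- Its derivative. -/
noncomputable def w' (x : ℝ) : ℝ := -(1 / 2) * sinh x / (cosh x * √(cosh x))

lemma sc (x : ℝ) : √(cosh x) ^ 2 = cosh x := Real.sq_sqrt (cosh_pos x).le

lemma scp (x : ℝ) : 0 < √(cosh x) := Real.sqrt_pos.2 (cosh_pos x)

lemma w_sq (x : ℝ) : w x ^ 2 = (cosh x)⁻¹ := by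
  rw [w, inv_pow, sc]

lemma w_pos (x : ℝ) : 0 < w x := inv_pos.2 (scp x)

lemma w_deriv (x : ℝ) : HasDerivAt w (w' x) x := by
  have h1 : HasDerivAt (fun x => √(cosh x)) (sinh x / (2 * √(cosh x))) x :=
    (hasDerivAt_cosh x).sqrt (cosh_pos x).ne'
  have h2 := h1.inv (scp x).ne'
  refine h2.congr_deriv ?_
  have h3 := scp x
  have h4 := cosh_pos x
  rw [sc, w']
  field_simp

lemma w'_sq (x : ℝ) : w' x ^ 2 = 1 / 4 * ((cosh x)⁻¹ - (cosh x)⁻¹ ^ 3) := by
  have h3 := scp x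
  have h4 := cosh_pos x
  have h5 : sinh x ^ 2 = cosh x ^ 2 - 1 := by have := cosh_sq x; linarith
  rw [w', div_pow, mul_pow, mul_pow, sc, h5]
  field_simp
  ring

lemma w'_cont : Continuous w' := by
  unfold w'
  have : ∀ x, cosh x * √(cosh x) ≠ 0 := fun x => mul_ne_zero (cosh_pos x).ne' (scp x).ne'
  exact (by fun_prop : Continuous fun x => -(1 / 2) * sinh x).div (by fun_prop) this

lemma w_cont : Continuous w := continuous_iff_continuousAt.2 fun x => (w_deriv x).continuousAt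

lemma tendsto_sinh_top : Tendsto sinh atTop atTop := sinhOrderIso.tendsto_atTop

lemma tendsto_sinh_bot : Tendsto sinh atBot atBot := sinhOrderIso.tendsto_atBot

lemma cosh_lb (x : ℝ) : 1 + x ^ 2 / 2 ≤ cosh x := by
  have h1 : cosh x = 1 + 2 * sinh (x / 2) ^ 2 := by
    have h2 : cosh x = cosh (2 * (x / 2)) := by congr 1; ring
    rw [h2, cosh_two_mul, cosh_sq]; ring
  have h3 : (x / 2) ^ 2 ≤ sinh (x / 2) ^ 2 := by
    rcases le_total 0 (x / 2) with h | h
    · exact pow_le_pow_left₀ h (self_le_sinh_iff.2 h) 2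
    · have h4 : sinh (x / 2) ≤ x / 2 := sinh_le_self_iff.2 h
      nlinarith
  rw [h1]
  nlinarith

lemma int_sech : Integrable (fun x => (cosh x)⁻¹) := by
  have hc : Continuous fun x => (cosh x)⁻¹ := continuous_cosh.inv₀ fun x => (cosh_pos x).ne'
  refine (integrable_inv_one_add_sq.const_mul 2).mono' hc.aestronglyMeasurable
    (Eventually.of_forall fun x => ?_)
  have h1 := cosh_lb x
  have h2 : 0 < cosh x := cosh_pos x
  rw [Real.norm_eq_abs, abs_of_pos (inv_pos.2 h2), ← div_eq_mul_inv, inv_eq_one_div,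
    div_le_div_iff₀ h2 (by positivity)]
  nlinarith [sq_nonneg x]

lemma int_sech3 : Integrable (fun x => (cosh x)⁻¹ ^ 3) := by
  have hc : Continuous fun x => (cosh x)⁻¹ ^ 3 :=
    (continuous_cosh.inv₀ fun x => (cosh_pos x).ne').pow 3
  refine int_sech.mono' hc.aestronglyMeasurable (Eventually.of_forall fun x => ?_)
  have h2 : 0 < cosh x := cosh_pos x
  have h3 : (cosh x)⁻¹ ≤ 1 := inv_le_one_of_one_le₀ (one_le_cosh x)
  have h4 : 0 < (cosh x)⁻¹ := inv_pos.2 h2
  rw [Real.norm_eq_abs, abs_of_pos (by positivity)]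
  calc (cosh x)⁻¹ ^ 3 ≤ (cosh x)⁻¹ ^ 1 := pow_le_pow_of_le_one h4.le h3 (by norm_num)
    _ = (cosh x)⁻¹ := pow_one _

lemma tendsto_arctan_sinh_top : Tendsto (fun x => arctan (sinh x)) atTop (𝓝 (π / 2)) :=
  (tendsto_arctan_atTop.mono_right nhdsWithin_le_nhds).comp tendsto_sinh_top

lemma tendsto_arctan_sinh_bot : Tendsto (fun x => arctan (sinh x)) atBot (𝓝 (-(π / 2))) :=
  (tendsto_arctan_atBot.mono_right nhdsWithin_le_nhds).comp tendsto_sinh_bot

lemma arctan_sinh_deriv (x : ℝ) : HasDerivAt (fun x => arctan (sinh x)) (cosh x)⁻¹ x := by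
  refine ((hasDerivAt_sinh x).arctan).congr_deriv ?_
  have h2 : 0 < cosh x := cosh_pos x
  have h5 : 1 + sinh x ^ 2 = cosh x ^ 2 := by have := cosh_sq x; linarith
  rw [h5]
  field_simp

lemma integral_sech : ∫ x, (cosh x)⁻¹ = π := by
  rw [integral_of_hasDerivAt_of_tendsto arctan_sinh_deriv int_sech tendsto_arctan_sinh_bot
    tendsto_arctan_sinh_top]
  ring

lemma aux_top : Tendsto (fun x => sinh x * (cosh x)⁻¹ ^ 2) atTop (𝓝 0) := by
  have h1 : Tendsto (fun x => (cosh x)⁻¹) atTop (𝓝 0) := by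
    have hc : Tendsto cosh atTop atTop := by
      refine tendsto_atTop_mono (fun x => ?_) tendsto_sinh_top
      exact (sinh_lt_cosh x).le
    exact hc.inv_tendsto_atTop
  refine squeeze_zero_norm (fun x => ?_) h1
  have h2 : 0 < cosh x := cosh_pos x
  have h3 : |sinh x| ≤ cosh x := by
    rw [abs_le]
    constructor
    · have := sinh_lt_cosh (-x); rw [sinh_neg, cosh_neg] at this; linarith
    · exact (sinh_lt_cosh x).le
  rw [norm_mul, norm_pow, norm_inv, Real.norm_eq_abs, Real.norm_eq_abs, abs_of_pos h2]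
  calc |sinh x| * (cosh x)⁻¹ ^ 2 ≤ cosh x * (cosh x)⁻¹ ^ 2 :=
        mul_le_mul_of_nonneg_right h3 (by positivity)
    _ = (cosh x)⁻¹ := by field_simp

lemma aux_bot : Tendsto (fun x => sinh x * (cosh x)⁻¹ ^ 2) atBot (𝓝 0) := by
  have h := (aux_top.comp tendsto_neg_atBot_atTop).neg
  simpa [Function.comp_def] using h

lemma sech3_deriv (x : ℝ) : HasDerivAt
    (fun x => 1 / 2 * (sinh x * (cosh x)⁻¹ ^ 2 + arctan (sinh x))) ((cosh x)⁻¹ ^ 3) x := by
  have h2 : 0 < cosh x := cosh_pos x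
  have h3 : HasDerivAt (fun x => (cosh x)⁻¹) (-sinh x / cosh x ^ 2) x :=
    (hasDerivAt_cosh x).inv h2.ne'
  have h4 := (((hasDerivAt_sinh x).mul (h3.pow 2)).add (arctan_sinh_deriv x)).const_mul (1 / 2)
  refine h4.congr_deriv ?_
  have h5 : sinh x ^ 2 = cosh x ^ 2 - 1 := by have := cosh_sq x; linarith
  have e : (1 / 2 : ℝ) * (cosh x * (cosh x)⁻¹ ^ 2 + sinh x * (2 * (cosh x)⁻¹ ^ 1 *
      (-sinh x / cosh x ^ 2)) + (cosh x)⁻¹) = (cosh x)⁻¹ ^ 3 := by
    have e2 : sinh x * (2 * (cosh x)⁻¹ ^ 1 * (-sinh x / cosh x ^ 2)) =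
        -2 * (sinh x ^ 2) * (cosh x)⁻¹ ^ 3 := by
      field_simp
    rw [e2, h5]
    field_simp
    ring
  exact e

lemma integral_sech3 : ∫ x, (cosh x)⁻¹ ^ 3 = π / 2 := by
  have hB : Tendsto (fun x => 1 / 2 * (sinh x * (cosh x)⁻¹ ^ 2 + arctan (sinh x))) atBot
      (𝓝 (1 / 2 * (0 + -(π / 2)))) := (aux_bot.add tendsto_arctan_sinh_bot).const_mul _
  have hT : Tendsto (fun x => 1 / 2 * (sinh x * (cosh x)⁻¹ ^ 2 + arctan (sinh x))) atTop
      (𝓝 (1 / 2 * (0 + π / 2))) := (aux_top.add tendsto_arctan_sinh_top).const_mul _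
  rw [integral_of_hasDerivAt_of_tendsto sech3_deriv int_sech3 hB hT]
  ring

lemma int_w_sq : Integrable (fun x => w x ^ 2) := by simp only [w_sq]; exact int_sech

lemma integral_w_sq : ∫ x, w x ^ 2 = π := by simp only [w_sq]; exact integral_sech

lemma integral_w_six : ∫ x, (w x ^ 2) ^ 3 = π / 2 := by simp only [w_sq]; exact integral_sech3

lemma int_w'_sq : Integrable (fun x => w' x ^ 2) := by
  simp only [w'_sq]; exact (int_sech.sub int_sech3).const_mul _

lemma integral_w'_sq : ∫ x, w' x ^ 2 = π / 8 := by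
  simp only [w'_sq]
  rw [integral_const_mul, integral_sub int_sech int_sech3, integral_sech, integral_sech3]
  ring

end Pool.Helper490.Sech
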