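import Pool.Agent.Helper490.CalibMain

set_option autoImplicit false

open MeasureTheory Set Filter Topology Real
open scoped RealInnerProductSpace

namespace Pool.Helper490.Calib

lemma sqn (z : ℂ) : ‖z‖ ^ 2 = z.re ^ 2 + z.im ^ 2 := by
  rw [Complex.sq_norm, Complex.normSq_apply]; ring

/-- The real coordinates of a complex system. -/
noncomputable def realify {N : ℕ} (u : Fin N → ℂ) : EuclideanSpace ℝ (Fin N ⊕ Fin N) :=
  WithLp.toLp 2 (Sum.elim (fun n => (u n).re) (fun n => (u n).im))

lemma realify_norm {N : ℕ} (u : Fin N → ℂ) : ‖realify u‖ ^ 2 = ∑ n, ‖u n‖ ^ 2 := by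
  rw [EuclideanSpace.norm_sq_eq, Fintype.sum_sum_type]
  simp only [realify, Sum.elim_inl, Sum.elim_inr, Real.norm_eq_abs, sq_abs]
  rw [← Finset.sum_add_distrib]
  exact Finset.sum_congr rfl fun n _ => (sqn _).symm

/-- The system attached to an orthonormal family of complex functions. -/
theorem sys_of_complex {N : ℕ} (u u' : Fin N → ℝ → ℂ) (hu : ∀ n x, HasDerivAt (u n) (u' n x) x)
    (hu'c : ∀ n, Continuous (u' n))
    (h2 : ∀ n, Integrable (fun x => ‖u n x‖ ^ 2)) (h2' : ∀ n, Integrable (fun x => ‖u' n x‖ ^ 2))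
    (ho : ∀ n m, ∫ x, star (u n x) * u m x = if n = m then 1 else 0) :
    Sys (fun x => realify fun n => u n x) (fun x => realify fun n => u' n x) := by
  have huc : ∀ n, Continuous (u n) := fun n =>
    continuous_iff_continuousAt.2 fun x => (hu n x).continuousAt
  have hij : ∀ n m, Integrable (fun x => star (u n x) * u m x) := by
    intro n m
    have hm : AEStronglyMeasurable (fun x => star (u n x) * u m x) volume :=
      ((continuous_star.comp (huc n)).mul (huc m)).aestronglyMeasurable
    refine ((h2 n).add (h2 m)).mono' hm (Eventually.of_forall fun x => ?_)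
    rw [norm_mul, norm_star]
    simp only [Pi.add_apply]
    nlinarith [sq_nonneg (‖u n x‖ - ‖u m x‖), norm_nonneg (u n x), norm_nonneg (u m x)]
  refine ⟨?_, ?_, ?_, ?_, ?_⟩
  · intro x
    have hpi : HasDerivAt (fun x => (Sum.elim (fun n => (u n x).re) (fun n => (u n x).im) :
        Fin N ⊕ Fin N → ℝ)) (Sum.elim (fun n => (u' n x).re) (fun n => (u' n x).im)) x := by
      rw [hasDerivAt_pi]
      rintro (n | n)
      · exact (Complex.reCLM.hasFDerivAt.comp_hasDerivAt x (hu n x))
      · exact (Complex.imCLM.hasFDerivAt.comp_hasDerivAt x (hu n x))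
    exact (PiLp.hasFDerivAt_toLp (𝕜 := ℝ) 2 _).comp_hasDerivAt x hpi
  · have hpi : Continuous (fun x => (Sum.elim (fun n => (u' n x).re) (fun n => (u' n x).im) :
        Fin N ⊕ Fin N → ℝ)) := by
      refine continuous_pi ?_
      rintro (n | n)
      · exact Complex.continuous_re.comp (hu'c n)
      · exact Complex.continuous_im.comp (hu'c n)
    exact (PiLp.continuous_toLp 2 _).comp hpi
  · simp only [realify_norm]
    exact integrable_finsetSum _ fun n _ => h2 n
  · simp only [realify_norm]
    exact integrable_finsetSum _ fun n _ => h2' n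
  · intro v
    set z : Fin N → ℂ := fun n => ⟨v (Sum.inl n), v (Sum.inr n)⟩ with hz
    set g : ℝ → ℂ := fun x => ∑ n, star (z n) * u n x with hg
    have hinner : ∀ x, ⟪realify (fun n => u n x), v⟫ = (g x).re := by
      intro x
      rw [PiLp.inner_apply, Fintype.sum_sum_type, hg]
      simp only [realify, Sum.elim_inl, Sum.elim_inr, Complex.re_sum]
      rw [← Finset.sum_add_distrib]
      refine Finset.sum_congr rfl fun n _ => ?_
      simp [hz]
    have hgc : Continuous g := continuous_finsetSum _ fun n _ => continuous_const.mul (huc n)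
    have hexp : ∀ x, star (g x) * g x =
        ∑ n, ∑ m, (z n * star (z m)) * (star (u n x) * u m x) := by
      intro x
      simp only [hg, star_sum, star_mul', star_star]
      rw [Finset.sum_mul_sum]
      refine Finset.sum_congr rfl fun n _ => Finset.sum_congr rfl fun m _ => ?_
      ring
    have hgi : Integrable (fun x => star (g x) * g x) := by
      simp only [hexp]
      exact integrable_finsetSum _ fun n _ => integrable_finsetSum _ fun m _ =>
        (hij n m).const_mul _
    have hgint : ∫ x, star (g x) * g x = ((∑ n, ‖z n‖ ^ 2 : ℝ) : ℂ) := by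
      simp only [hexp]
      rw [integral_finsetSum _ fun n _ => integrable_finsetSum _ fun m _ =>
        (hij n m).const_mul _]
      push_cast
      refine Finset.sum_congr rfl fun n _ => ?_
      rw [integral_finsetSum _ fun m _ => (hij n m).const_mul _]
      simp only [integral_const_mul, ho]
      simp only [mul_ite, mul_one, mul_zero, Finset.sum_ite_eq, Finset.mem_univ, if_true]
      rw [← Complex.ofReal_pow, ← Complex.normSq_eq_norm_sq]
      exact Complex.mul_conj _
    have hnorm : ∀ x, ((‖g x‖ ^ 2 : ℝ) : ℂ) = star (g x) * g x := by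
      intro x
      rw [mul_comm]
      rw [← Complex.normSq_eq_norm_sq]
      exact (Complex.mul_conj _).symm
    have hgi2 : Integrable (fun x => ‖g x‖ ^ 2) := by
      have := hgi.re
      refine this.congr (Eventually.of_forall fun x => ?_)
      simp only [← hnorm]
      exact Complex.ofReal_re _
    have hval : ∫ x, ‖g x‖ ^ 2 = ∑ n, ‖z n‖ ^ 2 := by
      have h1 : ((∫ x, ‖g x‖ ^ 2 : ℝ) : ℂ) = ((∑ n, ‖z n‖ ^ 2 : ℝ) : ℂ) := by
        rw [← hgint, ← integral_complex_ofReal]
        exact integral_congr_ae (Eventually.of_forall fun x => hnorm x)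
      exact_mod_cast h1
    have hv : ‖v‖ ^ 2 = ∑ n, ‖z n‖ ^ 2 := by
      rw [EuclideanSpace.norm_sq_eq, Fintype.sum_sum_type, ← Finset.sum_add_distrib]
      refine Finset.sum_congr rfl fun n _ => ?_
      rw [sqn]
      simp [hz]
    rw [hv, ← hval]
    refine integral_mono_of_nonneg (Eventually.of_forall fun x => sq_nonneg _) hgi2
      (Eventually.of_forall fun x => ?_)
    simp only [hinner]
    rw [sqn]
    nlinarith [sq_nonneg (g x).im]

/-- The sharp one-dimensional Lieb–Thirring kinetic inequality for orthonormal families. -/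
theorem sharp_complex {N : ℕ} (u u' : Fin N → ℝ → ℂ) (hu : ∀ n x, HasDerivAt (u n) (u' n x) x)
    (hu'c : ∀ n, Continuous (u' n))
    (h2 : ∀ n, Integrable (fun x => ‖u n x‖ ^ 2)) (h2' : ∀ n, Integrable (fun x => ‖u' n x‖ ^ 2))
    (ho : ∀ n m, ∫ x, star (u n x) * u m x = if n = m then 1 else 0) :
    π ^ 2 / 4 * ∫ x, (∑ n, ‖u n x‖ ^ 2) ^ 3 ≤ ∑ n, ∫ x, ‖u' n x‖ ^ 2 := by
  have h := (sys_of_complex u u' hu hu'c h2 h2' ho).sharp
  simp only [realify_norm] at h
  rwa [integral_finsetSum _ fun n _ => h2' n] at h

end Pool.Helper490.Calib
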