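import Mathlib

set_option autoImplicit false

open MeasureTheory Set Metric Real
open scoped RealInnerProductSpace ENNReal

namespace Pool.Helper490.Sphere

noncomputable section

/-- The three dimensional Euclidean space. -/
abbrev E := EuclideanSpace ℝ (Fin 3)

/-- The rotation invariant measure on the unit sphere of `E`. -/
def sig : Measure (sphere (0 : E) 1) := (volume : Measure E).toSphere

lemma finrank_E : Module.finrank ℝ E = 3 := by simp

/-- Polar coordinates for a function that is homogeneous of degree `a`. -/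
lemma polar (a : ℝ) (G : E → ℝ)
    (hG : ∀ r : ℝ, 0 < r → ∀ x : E, ‖x‖ = 1 → G (r • x) = r ^ a * G x) :
    ∫ x : E, G x * exp (-‖x‖ ^ 2) =
      (∫ ξ, G (ξ : E) ∂sig) * ∫ r in Ioi (0 : ℝ), r ^ (2 : ℕ) * (r ^ a * exp (-r ^ 2)) := by
  have hE : Module.finrank ℝ E - 1 = 2 := by rw [finrank_E]
  calc
    ∫ x : E, G x * exp (-‖x‖ ^ 2)
        = ∫ x : ({(0 : E)}ᶜ : Set E), G x.1 * exp (-‖x.1‖ ^ 2)
            ∂((volume : Measure E).comap (↑)) := by
      rw [integral_subtype_comap (measurableSet_singleton _).compl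
        fun x : E ↦ G x * exp (-‖x‖ ^ 2), restrict_compl_singleton]
    _ = ∫ p : sphere (0 : E) 1 × Ioi (0 : ℝ), G (p.1 : E) *
          ((p.2 : ℝ) ^ a * exp (-(p.2 : ℝ) ^ 2))
          ∂((volume : Measure E).toSphere.prod (Measure.volumeIoiPow (Module.finrank ℝ E - 1))) := by
      have h := (volume : Measure E).measurePreserving_homeomorphUnitSphereProd.integral_comp
        (Homeomorph.measurableEmbedding _)
        (fun p : sphere (0 : E) 1 × Ioi (0 : ℝ) => G (p.1 : E) *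
          ((p.2 : ℝ) ^ a * exp (-(p.2 : ℝ) ^ 2)))
      rw [← h]
      refine integral_congr_ae (Filter.Eventually.of_forall fun x => ?_)
      have hx : (x : E) ≠ 0 := x.2
      have hn : 0 < ‖(x : E)‖ := norm_pos_iff.2 hx
      have h1 : ((homeomorphUnitSphereProd E x).2 : ℝ) = ‖(x : E)‖ := by simp
      have h2 : ((homeomorphUnitSphereProd E x).1 : E) = ‖(x : E)‖⁻¹ • (x : E) := by simp
      have h3 : G (x : E) = ‖(x : E)‖ ^ a * G (‖(x : E)‖⁻¹ • (x : E)) := by
        rw [← hG _ hn _ (by rw [norm_smul, norm_inv, norm_norm, inv_mul_cancel₀ hn.ne'])]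
        rw [smul_smul, mul_inv_cancel₀ hn.ne', one_smul]
      simp only [h1, h2]
      rw [h3]
      ring
    _ = (∫ ξ, G (ξ : E) ∂sig) *
          ∫ r : Ioi (0 : ℝ), ((r : ℝ) ^ a * exp (-(r : ℝ) ^ 2))
            ∂(Measure.volumeIoiPow (Module.finrank ℝ E - 1)) := by
      rw [sig]
      exact integral_prod_mul (fun ξ : sphere (0 : E) 1 => G (ξ : E))
        (fun r : Ioi (0 : ℝ) => (r : ℝ) ^ a * exp (-(r : ℝ) ^ 2))
    _ = _ := by
      congr 1
      simp only [Measure.volumeIoiPow, ENNReal.ofReal]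
      rw [integral_withDensity_eq_integral_smul,
        integral_subtype_comap measurableSet_Ioi fun r : ℝ ↦
          Real.toNNReal (r ^ (Module.finrank ℝ E - 1)) • (r ^ a * exp (-r ^ 2)),
        setIntegral_congr_fun measurableSet_Ioi fun x hx ↦ ?_]
      · rw [hE]
        simp only [NNReal.smul_def, smul_eq_mul]
        rw [Real.coe_toNNReal _ (pow_nonneg (le_of_lt hx) _)]
      · exact (measurable_subtype_coe.pow_const _).real_toNNReal

lemma radial (a : ℝ) (ha : 0 ≤ a) :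
    ∫ r in Ioi (0 : ℝ), r ^ (2 : ℕ) * (r ^ a * exp (-r ^ 2)) =
      (a + 1) / 4 * Gamma ((a + 1) / 2) := by
  have h := integral_rpow_mul_exp_neg_rpow (p := 2) (q := a + 2) (by norm_num) (by linarith)
  have h2 : ∫ r in Ioi (0 : ℝ), r ^ (2 : ℕ) * (r ^ a * exp (-r ^ 2)) =
      ∫ r in Ioi (0 : ℝ), r ^ (a + 2) * exp (-r ^ (2 : ℝ)) := by
    refine setIntegral_congr_fun measurableSet_Ioi fun r hr => ?_
    have hr' : (0 : ℝ) < r := hr
    rw [Real.rpow_add hr']
    norm_num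
    ring
  rw [h2, h]
  have h3 : (a + 2 + 1) / 2 = (a + 1) / 2 + 1 := by ring
  rw [h3, Gamma_add_one (by positivity)]
  ring

lemma one_dim (a : ℝ) (ha : 0 ≤ a) :
    ∫ t : ℝ, |t| ^ a * exp (-t ^ 2) = Gamma ((a + 1) / 2) := by
  have h1 : ∫ t : ℝ, |t| ^ a * exp (-t ^ 2) = ∫ t : ℝ, (fun s : ℝ => s ^ a * exp (-s ^ 2)) |t| := by
    refine integral_congr_ae (Filter.Eventually.of_forall fun t => ?_)
    simp [sq_abs]
  rw [h1, integral_comp_abs (f := fun s : ℝ => s ^ a * exp (-s ^ 2))]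
  have h := integral_rpow_mul_exp_neg_rpow (p := 2) (q := a) (by norm_num) (by linarith)
  have h2 : ∫ r in Ioi (0 : ℝ), (fun s : ℝ => s ^ a * exp (-s ^ 2)) r =
      ∫ r in Ioi (0 : ℝ), r ^ a * exp (-r ^ (2 : ℝ)) := by
    refine setIntegral_congr_fun measurableSet_Ioi fun r hr => ?_
    norm_num
  rw [h2, h]
  ring

lemma gauss_coord (a : ℝ) (ha : 0 ≤ a) :
    ∫ x : E, |x 0| ^ a * exp (-‖x‖ ^ 2) = π * Gamma ((a + 1) / 2) := by
  have h0 : ∀ x : E, |x 0| ^ a * exp (-‖x‖ ^ 2) =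
      ∏ i : Fin 3, (![fun t : ℝ => |t| ^ a * exp (-t ^ 2), fun t : ℝ => exp (-t ^ 2),
        fun t : ℝ => exp (-t ^ 2)] i) (x i) := by
    intro x
    rw [EuclideanSpace.norm_sq_eq, Fin.prod_univ_three, Fin.sum_univ_three]
    simp only [Real.norm_eq_abs, sq_abs]
    have : exp (-(x 0 ^ 2 + x 1 ^ 2 + x 2 ^ 2)) = exp (-x 0 ^ 2) * exp (-x 1 ^ 2) * exp (-x 2 ^ 2) := by
      rw [← exp_add, ← exp_add]; congr 1; ring
    rw [this]
    simp
    ring
  simp_rw [h0]
  have h1 := (EuclideanSpace.volume_preserving_symm_measurableEquiv_toLp (Fin 3)).integral_comp'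
    (g := fun y : Fin 3 → ℝ => ∏ i : Fin 3, (![fun t : ℝ => |t| ^ a * exp (-t ^ 2),
        fun t : ℝ => exp (-t ^ 2), fun t : ℝ => exp (-t ^ 2)] i) (y i))
  have h2 : ∫ x : E, ∏ i : Fin 3, (![fun t : ℝ => |t| ^ a * exp (-t ^ 2),
      fun t : ℝ => exp (-t ^ 2), fun t : ℝ => exp (-t ^ 2)] i) (x i) =
      ∫ y : Fin 3 → ℝ, ∏ i : Fin 3, (![fun t : ℝ => |t| ^ a * exp (-t ^ 2),
        fun t : ℝ => exp (-t ^ 2), fun t : ℝ => exp (-t ^ 2)] i) (y i) := h1
  rw [h2, integral_fin_nat_prod_volume_eq_prod (𝕜 := ℝ), Fin.prod_univ_three]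
  have hg : ∫ t : ℝ, exp (-t ^ 2) = √π := by
    have := integral_gaussian 1
    simpa using this
  simp only [Matrix.cons_val_zero, Matrix.cons_val_one, Matrix.cons_val_two, Matrix.tail_cons,
    Matrix.head_cons, Matrix.cons_val]
  rw [one_dim a ha, hg, mul_assoc, Real.mul_self_sqrt pi_pos.le]
  ring

/-- For every unit vector there is a linear isometry that maps the first basis vector to it. -/
lemma exists_isometry (v : E) (hv : ‖v‖ = 1) :
    ∃ R : E ≃ₗᵢ[ℝ] E, R (EuclideanSpace.single 0 1) = v := by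
  refine ⟨((ℝ ∙ ((EuclideanSpace.single 0 1 : E) - v))ᗮ).reflection, ?_⟩
  exact Submodule.reflection_sub (by simp [hv])

lemma gauss_inner (a : ℝ) (ha : 0 ≤ a) (v : E) (hv : ‖v‖ = 1) :
    ∫ x : E, |⟪x, v⟫| ^ a * exp (-‖x‖ ^ 2) = π * Gamma ((a + 1) / 2) := by
  obtain ⟨R, hR⟩ := exists_isometry v hv
  rw [← gauss_coord a ha]
  have h := (R.measurePreserving).integral_comp R.toHomeomorph.measurableEmbedding
    (fun x : E => |⟪x, v⟫| ^ a * exp (-‖x‖ ^ 2))
  rw [← h]
  refine integral_congr_ae (Filter.Eventually.of_forall fun x => ?_)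
  have h1 : ⟪R x, v⟫ = x 0 := by
    rw [← hR, R.inner_map_map]
    simp [EuclideanSpace.inner_single_right]
  simp only [h1, R.norm_map]

/-- Moments of the coordinates on the sphere. -/
lemma sphere_moment (a : ℝ) (ha : 0 ≤ a) (v : E) (hv : ‖v‖ = 1) :
    ∫ ξ, |⟪(ξ : E), v⟫| ^ a ∂sig = 4 * π / (a + 1) := by
  have h := polar a (fun x : E => |⟪x, v⟫| ^ a) (by
    intro r hr x hx
    rw [real_inner_smul_left, abs_mul, abs_of_pos hr, Real.mul_rpow hr.le (abs_nonneg _)])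
  rw [gauss_inner a ha v hv, radial a ha] at h
  have hG : 0 < Gamma ((a + 1) / 2) := Gamma_pos_of_pos (by positivity)
  have ha1 : 0 < a + 1 := by linarith
  have h2 : (∫ ξ, |⟪(ξ : E), v⟫| ^ a ∂sig) * ((a + 1) / 4) = π := by
    have : Gamma ((a + 1) / 2) * ((∫ ξ, |⟪(ξ : E), v⟫| ^ a ∂sig) * ((a + 1) / 4)) =
        Gamma ((a + 1) / 2) * π := by linarith [h]
    exact mul_left_cancel₀ hG.ne' this
  field_simp
  linarith [h2]

/-- The sign function. -/
def sg (x : ℝ) : ℝ := (Ioi (0:ℝ)).indicator (fun _ => (1:ℝ)) x - (Iio (0:ℝ)).indicator (fun _ => (1:ℝ)) x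

lemma sg_measurable : Measurable sg := by
  unfold sg
  exact (measurable_const.indicator measurableSet_Ioi).sub
    (measurable_const.indicator measurableSet_Iio)

lemma sg_pos {x : ℝ} (h : 0 < x) : sg x = 1 := by
  simp [sg, h, h.le]

lemma sg_neg {x : ℝ} (h : x < 0) : sg x = -1 := by
  simp [sg, h, h.le]

lemma sg_zero : sg 0 = 0 := by simp [sg]

lemma mul_sg (x : ℝ) : x * sg x = |x| := by
  rcases lt_trichotomy x 0 with h | h | h
  · rw [sg_neg h, abs_of_neg h]; ring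
  · simp [h]
  · rw [sg_pos h, abs_of_pos h]; ring

lemma sg_smul {r x : ℝ} (hr : 0 < r) : sg (r * x) = sg x := by
  rcases lt_trichotomy x 0 with h | h | h
  · rw [sg_neg h, sg_neg (mul_neg_of_pos_of_neg hr h)]
  · simp [h]
  · rw [sg_pos h, sg_pos (mul_pos hr h)]

lemma abs_sg_le (x : ℝ) : |sg x| ≤ 1 := by
  rcases lt_trichotomy x 0 with h | h | h
  · rw [sg_neg h]; simp
  · simp [h, sg_zero]
  · rw [sg_pos h]; simp

instance : IsFiniteMeasure sig := by unfold sig; infer_instance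

lemma sphere_sign (u v : E) (hv : ‖v‖ = 1) :
    ∫ ξ, ⟪(ξ : E), u⟫ * sg ⟪(ξ : E), v⟫ ∂sig = 2 * π * ⟪u, v⟫ := by
  set R : E ≃ₗᵢ[ℝ] E := (ℝ ∙ v).reflection with hRdef
  have hRv : R v = v := by
    rw [hRdef]
    exact Submodule.reflection_mem_subspace_eq_self (Submodule.mem_span_singleton_self v)
  have hself : ∀ x y : E, ⟪R x, y⟫ = ⟪x, R y⟫ := by
    intro x y
    have h := R.inner_map_map x (R y)
    have h2 : R (R y) = y := by rw [hRdef]; exact Submodule.reflection_reflection _ y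
    rw [h2] at h
    exact h
  have hRu : R u = (2 * ⟪u, v⟫) • v - u := by
    rw [hRdef, Submodule.reflection_apply, Submodule.starProjection_unit_singleton ℝ hv,
      real_inner_comm]
    module
  let G : E → ℝ := fun x => ⟪x, u⟫ * sg ⟪x, v⟫
  have hGR : ∀ x, G (R x) = 2 * ⟪u, v⟫ * |⟪x, v⟫| - G x := by
    intro x
    simp only [G]
    rw [hself, hself, hRv, hRu, inner_sub_right, inner_smul_right, ← mul_sg]
    ring
  have hp1 := polar 1 G (by
    intro r hr x hx
    simp only [G]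
    rw [real_inner_smul_left, real_inner_smul_left, sg_smul hr, Real.rpow_one]; ring)
  have hp2 := polar 1 (fun x => G (R x)) (by
    intro r hr x hx
    simp only [G]
    rw [map_smul, real_inner_smul_left, real_inner_smul_left, sg_smul hr, Real.rpow_one]; ring)
  have hinv : ∫ x : E, G (R x) * exp (-‖x‖ ^ 2) = ∫ x : E, G x * exp (-‖x‖ ^ 2) := by
    have h := (R.measurePreserving).integral_comp R.toHomeomorph.measurableEmbedding
      (fun x : E => G x * exp (-‖x‖ ^ 2))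
    rw [← h]
    refine integral_congr_ae (Filter.Eventually.of_forall fun x => ?_)
    simp only [R.norm_map]
  have hc : ∫ r in Ioi (0 : ℝ), r ^ (2 : ℕ) * (r ^ (1:ℝ) * exp (-r ^ 2)) = 1 / 2 := by
    rw [radial 1 zero_le_one]
    norm_num
  rw [hc] at hp1 hp2
  have heq : ∫ ξ, G (R (ξ : E)) ∂sig = ∫ ξ, G (ξ : E) ∂sig := by linarith
  have hGint : Integrable (fun ξ : sphere (0 : E) 1 => G (ξ : E)) sig := by
    refine Integrable.of_bound (C := ‖u‖) ?_ ?_
    · refine Measurable.aestronglyMeasurable ?_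
      have h1 : Measurable fun ξ : sphere (0 : E) 1 => ⟪(ξ : E), u⟫ := by fun_prop
      have h2 : Measurable fun ξ : sphere (0 : E) 1 => ⟪(ξ : E), v⟫ := by fun_prop
      exact h1.mul (sg_measurable.comp h2)
    · refine Filter.Eventually.of_forall fun ξ => ?_
      have hξ : ‖(ξ : E)‖ = 1 := by simp
      simp only [G]
      rw [Real.norm_eq_abs, abs_mul]
      calc |⟪(ξ : E), u⟫| * |sg ⟪(ξ : E), v⟫| ≤ (‖(ξ : E)‖ * ‖u‖) * 1 := by
            refine mul_le_mul (abs_real_inner_le_norm _ _) (abs_sg_le _) (abs_nonneg _) (by positivity)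
        _ = ‖u‖ := by rw [hξ]; ring
  have hAint : Integrable (fun ξ : sphere (0 : E) 1 => |⟪(ξ : E), v⟫|) sig := by
    refine Integrable.of_bound (C := 1) ?_ ?_
    · exact (by fun_prop : Measurable fun ξ : sphere (0 : E) 1 => |⟪(ξ : E), v⟫|).aestronglyMeasurable
    · refine Filter.Eventually.of_forall fun ξ => ?_
      have hξ : ‖(ξ : E)‖ = 1 := by simp
      rw [Real.norm_eq_abs, abs_abs]
      calc |⟪(ξ : E), v⟫| ≤ ‖(ξ : E)‖ * ‖v‖ := abs_real_inner_le_norm _ _
        _ = 1 := by rw [hξ, hv]; ring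
  have hA : ∫ ξ, |⟪(ξ : E), v⟫| ∂sig = 2 * π := by
    have h := sphere_moment 1 zero_le_one v hv
    simp only [Real.rpow_one] at h
    rw [h]; ring
  have hsum : ∫ ξ, G (R (ξ : E)) ∂sig = 2 * ⟪u, v⟫ * (2 * π) - ∫ ξ, G (ξ : E) ∂sig := by
    simp_rw [hGR]
    rw [integral_sub (hAint.const_mul _) hGint, integral_const_mul, hA]
  have hfin : ∫ ξ, G (ξ : E) ∂sig = 2 * π * ⟪u, v⟫ := by linarith
  exact hfin

/-- The uniform probability measure on the unit sphere, seen on the whole space. -/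
theorem exists_sphere_measure :
    ∃ ν : Measure (EuclideanSpace ℝ (Fin 3)), IsFiniteMeasure ν ∧ (∀ᵐ b ∂ν, ‖b‖ ≤ 1) ∧
      (∀ v, ∫ b, (inner ℝ b v) ^ 2 ∂ν = (1 / 3) * ‖v‖ ^ 2) ∧
      (∀ v, ‖v‖ = 1 → ∫ b, |inner ℝ b v| ^ ((4 : ℝ) / 3) ∂ν = 3 / 7) ∧
      (∀ v, ‖v‖ = 1 → ∀ u, ∫ b, inner ℝ b u * sg (inner ℝ b v) ∂ν = (1 / 2) * inner ℝ u v) := by
  have hemb : MeasurableEmbedding (Subtype.val : sphere (0 : E) 1 → E) :=
    MeasurableEmbedding.subtype_coe isClosed_sphere.measurableSet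
  have hint : ∀ f : E → ℝ, ∫ b, f b ∂(ENNReal.ofReal (4 * π)⁻¹ • sig.map Subtype.val) =
      (4 * π)⁻¹ * ∫ ξ, f (ξ : E) ∂sig := by
    intro f
    rw [integral_smul_measure, hemb.integral_map, ENNReal.toReal_ofReal (by positivity), smul_eq_mul]
  have hpi : (π : ℝ) ≠ 0 := pi_ne_zero
  refine ⟨ENNReal.ofReal (4 * π)⁻¹ • sig.map Subtype.val, ?_, ?_, ?_, ?_, ?_⟩
  · have : IsFiniteMeasure (sig.map (Subtype.val : sphere (0 : E) 1 → E)) := by infer_instance
    exact Measure.smul_finite _ ENNReal.ofReal_ne_top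
  · refine Measure.ae_smul_measure ?_ _
    rw [hemb.ae_map_iff]
    refine Filter.Eventually.of_forall fun ξ => ?_
    have hξ : ‖(ξ : E)‖ = 1 := by simp
    exact hξ.le
  · intro v
    rw [hint]
    by_cases hv : v = 0
    · simp [hv]
    have hn : 0 < ‖v‖ := norm_pos_iff.2 hv
    have h := sphere_moment 2 zero_le_two (‖v‖⁻¹ • v)
      (by rw [norm_smul, norm_inv, norm_norm, inv_mul_cancel₀ hn.ne'])
    have h2 : ∀ ξ : sphere (0 : E) 1, (⟪(ξ : E), v⟫) ^ 2 =
        ‖v‖ ^ 2 * |⟪(ξ : E), ‖v‖⁻¹ • v⟫| ^ (2 : ℝ) := by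
      intro ξ
      rw [Real.rpow_two, sq_abs, real_inner_smul_right, mul_pow, inv_pow]
      field_simp
    simp_rw [h2]
    rw [integral_const_mul, h]
    field_simp
    norm_num
  · intro v hv
    rw [hint, sphere_moment (4 / 3) (by norm_num) v hv]
    field_simp
    norm_num
  · intro v hv u
    rw [hint (fun b => inner ℝ b u * sg (inner ℝ b v)), sphere_sign u v hv]
    field_simp
    norm_num

end

end Pool.Helper490.Sphere
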