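import Pool.Agent.Helper490.LTScalar
import Pool.Agent.Helper490.SphereMeasure

set_option autoImplicit false

open MeasureTheory Set Filter Topology Real
open scoped RealInnerProductSpace

namespace Pool.Helper490.LT

open Pool.Helper490.Sphere (sg)

variable {E : Type*} [NormedAddCommGroup E] [InnerProductSpace ℝ E] [MeasurableSpace E]
  [BorelSpace E] [FiniteDimensional ℝ E]

/-- The data: a curve `ψ` in `E`, its derivative `ψ'`, its length `ρ` and an energy density `K`. -/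
structure Vec (ψ ψ' : ℝ → E) (ρ K : ℝ → ℝ) : Prop where
  hψ : ∀ x, HasDerivAt ψ (ψ' x) x
  hψ'c : Continuous ψ'
  hρ : ∀ x, ‖ψ x‖ = ρ x
  hρi : Integrable ρ
  hKc : Measurable K
  hKi : Integrable K
  hK0 : ∀ x, 0 ≤ K x
  hK : ∀ x, ‖ψ' x‖ ^ 2 ≤ 4 * ρ x * K x
  hρM : ∃ M, ∀ x, ρ x ≤ M
  hT : Tendsto ρ atTop (𝓝 0)
  hB : Tendsto ρ atBot (𝓝 0)

namespace Vec

variable {ψ ψ' : ℝ → E} {ρ K : ℝ → ℝ} (h : Vec ψ ψ' ρ K)
include h

lemma ψc : Continuous ψ := continuous_iff_continuousAt.2 fun x => (h.hψ x).continuousAt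

lemma ρc : Continuous ρ := by
  have : ρ = fun x => ‖ψ x‖ := funext fun x => (h.hρ x).symm
  rw [this]
  exact h.ψc.norm

lemma ρ0 (x : ℝ) : 0 ≤ ρ x := by rw [← h.hρ x]; exact norm_nonneg _

/-- Each direction gives a scalar problem. -/
lemma dom (b : E) (hb : ‖b‖ ≤ 1) : Dom ρ (fun x => ⟪b, ψ x⟫) (fun x => ⟪b, ψ' x⟫) K where
  hρc := h.ρc
  hρi := h.hρi
  hf := fun x => by
    have := (innerSL ℝ b).hasFDerivAt.comp_hasDerivAt x (h.hψ x)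
    simpa [Function.comp_def, innerSL_apply_apply] using this
  hgc := continuous_const.inner h.hψ'c
  hfρ := fun x => by
    have h1 := abs_real_inner_le_norm b (ψ x)
    rw [h.hρ x] at h1
    calc |⟪b, ψ x⟫| ≤ ‖b‖ * ρ x := h1
      _ ≤ 1 * ρ x := mul_le_mul_of_nonneg_right hb (h.ρ0 x)
      _ = ρ x := one_mul _
  hKi := h.hKi
  hg := fun x => by
    have h1 := abs_real_inner_le_norm b (ψ' x)
    have h2 : |⟪b, ψ' x⟫| ≤ ‖ψ' x‖ := by
      calc |⟪b, ψ' x⟫| ≤ ‖b‖ * ‖ψ' x‖ := h1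
        _ ≤ 1 * ‖ψ' x‖ := mul_le_mul_of_nonneg_right hb (norm_nonneg _)
        _ = ‖ψ' x‖ := one_mul _
    rw [← sq_abs]
    exact (pow_le_pow_left₀ (abs_nonneg _) h2 2).trans (h.hK x)
  hK0 := h.hK0
  hρM := h.hρM
  hT := h.hT
  hB := h.hB

/-- Averaging the scalar inequality over directions. -/
theorem averaged (ν : Measure E) [IsFiniteMeasure ν] (hb : ∀ᵐ b ∂ν, ‖b‖ ≤ 1)
    (a1 a2 ap : ℝ)
    (h2 : ∀ v : E, ∫ b, ⟪b, v⟫ ^ 2 ∂ν = a2 * ‖v‖ ^ 2) (ha2 : 0 ≤ a2)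
    (hp : ∀ v : E, ‖v‖ = 1 → ∫ b, |⟪b, v⟫| ^ ((4:ℝ)/3) ∂ν = ap)
    (hsg : ∀ v : E, ‖v‖ = 1 → ∀ u : E, ∫ b, ⟪b, u⟫ * sg ⟪b, v⟫ ∂ν = a1 * ⟪u, v⟫)
    (hmass : ∫ x, ρ x = 2) (h0 : ∫ x, ψ x = 0) :
    π ^ 2 * (108 / 49 * ap - 432 / 343 * a1) * ∫ x, ρ x ^ 3 ≤ 4 * a2 * ∫ x, K x := by
  have hψc := h.ψc
  have hρc := h.ρc
  have hψ'c := h.hψ'c
  have hψi : Integrable ψ := by
    refine h.hρi.mono hψc.aestronglyMeasurable (Eventually.of_forall fun x => ?_)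
    rw [h.hρ x, Real.norm_eq_abs, abs_of_nonneg (h.ρ0 x)]
  have hρ3i : Integrable (fun x => ρ x ^ 3) := (h.dom 0 (by simp)).int_cube
  -- measurability on the product
  have min1 : Measurable (fun z : E × ℝ => ⟪z.1, ψ z.2⟫) := by
    have : Continuous (fun z : E × ℝ => ⟪z.1, ψ z.2⟫) := by fun_prop
    exact this.measurable
  have min2 : Measurable (fun z : E × ℝ => ⟪z.1, ψ' z.2⟫) := by
    have : Continuous (fun z : E × ℝ => ⟪z.1, ψ' z.2⟫) := by fun_prop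
    exact this.measurable
  have mρ : Measurable (fun z : E × ℝ => ρ z.2) := hρc.measurable.comp measurable_snd
  have hae : ∀ᵐ z ∂(ν.prod (volume : Measure ℝ)), ‖z.1‖ ≤ 1 :=
    Measure.quasiMeasurePreserving_fst.ae hb
  have integ : ∀ (G : E × ℝ → ℝ) (D : ℝ → ℝ), Measurable G → Integrable D →
      (∀ b x, ‖b‖ ≤ 1 → |G (b, x)| ≤ D x) → Integrable G (ν.prod (volume : Measure ℝ)) := by
    intro G D hG hD hGD
    have hD2 : Integrable (fun z : E × ℝ => D z.2) (ν.prod (volume : Measure ℝ)) := hD.comp_snd ν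
    refine hD2.mono' hG.aestronglyMeasurable (hae.mono fun z hz => ?_)
    exact hGD z.1 z.2 hz
  have zle : ∀ b x, ‖b‖ ≤ 1 → |⟪b, ψ x⟫ / ρ x| ≤ 1 := fun b x hb => (h.dom b hb).z_abs_le x
  have mA : Measurable (fun z : E × ℝ => ρ z.2 ^ 3 * |⟪z.1, ψ z.2⟫ / ρ z.2| ^ ((4:ℝ)/3)) :=
    (mρ.pow_const 3).mul (((continuous_abs.measurable.comp (min1.div mρ))).pow_const _)
  have mB : Measurable (fun z : E × ℝ => ρ z.2 ^ 3 * |⟪z.1, ψ z.2⟫ / ρ z.2|) :=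
    (mρ.pow_const 3).mul (continuous_abs.measurable.comp (min1.div mρ))
  have mF : Measurable (fun z : E × ℝ => ⟪z.1, ψ' z.2⟫ ^ 2 / ρ z.2) :=
    (min2.pow_const 2).div mρ
  have iA := integ _ (fun x => ρ x ^ 3) mA hρ3i (fun b x hb => by
    have hz := zle b x hb
    have h3 : 0 ≤ ρ x ^ 3 := pow_nonneg (h.ρ0 x) 3
    rw [abs_mul, abs_of_nonneg h3, abs_of_nonneg (rpow_nonneg (abs_nonneg _) _)]
    calc ρ x ^ 3 * |⟪b, ψ x⟫ / ρ x| ^ ((4:ℝ)/3) ≤ ρ x ^ 3 * 1 :=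
          mul_le_mul_of_nonneg_left (rpow_le_one (abs_nonneg _) hz (by norm_num)) h3
      _ = ρ x ^ 3 := mul_one _)
  have iB := integ _ (fun x => ρ x ^ 3) mB hρ3i (fun b x hb => by
    have hz := zle b x hb
    have h3 : 0 ≤ ρ x ^ 3 := pow_nonneg (h.ρ0 x) 3
    rw [abs_mul, abs_of_nonneg h3, abs_abs]
    calc ρ x ^ 3 * |⟪b, ψ x⟫ / ρ x| ≤ ρ x ^ 3 * 1 := mul_le_mul_of_nonneg_left hz h3
      _ = ρ x ^ 3 := mul_one _)
  have iF := integ _ (fun x => 4 * K x) mF (h.hKi.const_mul 4) (fun b x hb => by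
    have hg := (h.dom b hb).hg x
    rw [abs_of_nonneg (div_nonneg (sq_nonneg _) (h.ρ0 x))]
    rcases (h.ρ0 x).eq_or_lt with h0 | h0
    · rw [← h0, div_zero]; exact mul_nonneg (by norm_num) (h.hK0 x)
    · rw [div_le_iff₀ h0]
      linarith)
  -- the cross term
  set Y : E := ∫ x, ρ x ^ 2 • ψ x with hY
  have hYi : Integrable (fun x => ρ x ^ 2 • ψ x) := by
    refine hρ3i.mono ((hρc.pow 2).smul hψc).aestronglyMeasurable (Eventually.of_forall fun x => ?_)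
    rw [norm_smul, h.hρ x, norm_pow, norm_pow]
    simp only [Real.norm_eq_abs, abs_of_nonneg (h.ρ0 x)]
    exact le_of_eq (by ring)
  have hYb : ∀ b : E, ∫ x, ρ x ^ 3 * (⟪b, ψ x⟫ / ρ x) = ⟪b, Y⟫ := by
    intro b
    have h1 := (innerSL ℝ b).integral_comp_comm hYi
    simp only [innerSL_apply_apply, real_inner_smul_right] at h1
    rw [hY, ← h1]
    congr 1
    funext x
    rcases (h.ρ0 x).eq_or_lt with h0 | h0
    · rw [← h0]; simp
    · field_simp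
  have mZ : Measurable (fun z : E × ℝ => (ρ z.2 * sg ⟪z.1, ψ z.2⟫) * ⟪z.1, Y⟫) := by
    have : Continuous (fun z : E × ℝ => ⟪z.1, Y⟫) := by fun_prop
    exact (mρ.mul (Pool.Helper490.Sphere.sg_measurable.comp min1)).mul this.measurable
  have iZ := integ _ (fun x => ρ x * ‖Y‖) mZ (h.hρi.mul_const _) (fun b x hb => by
    rw [abs_mul, abs_mul, abs_of_nonneg (h.ρ0 x)]
    have h1 := Pool.Helper490.Sphere.abs_sg_le ⟪b, ψ x⟫
    have h3 : |⟪b, Y⟫| ≤ ‖Y‖ := by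
      calc |⟪b, Y⟫| ≤ ‖b‖ * ‖Y‖ := abs_real_inner_le_norm b Y
        _ ≤ 1 * ‖Y‖ := mul_le_mul_of_nonneg_right hb (norm_nonneg _)
        _ = ‖Y‖ := one_mul _
    refine mul_le_mul ?_ h3 (abs_nonneg _) (h.ρ0 x)
    calc ρ x * |sg ⟪b, ψ x⟫| ≤ ρ x * 1 := mul_le_mul_of_nonneg_left h1 (h.ρ0 x)
      _ = ρ x := mul_one _)
  -- the scalar inequality in terms of these functions
  have sc : ∀ b : E, ‖b‖ ≤ 1 →
      π ^ 2 * (108 / 49 * (∫ x, ρ x ^ 3 * |⟪b, ψ x⟫ / ρ x| ^ ((4:ℝ)/3)) -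
        432 / 343 * (∫ x, ρ x ^ 3 * |⟪b, ψ x⟫ / ρ x|) -
        216 / 343 * (∫ x, (ρ x * sg ⟪b, ψ x⟫) * ⟪b, Y⟫)) ≤ ∫ x, ⟪b, ψ' x⟫ ^ 2 / ρ x := by
    intro b hb
    have hd := h.dom b hb
    have hsc := hd.scalar hmass
    have hm : Measurable (fun x => ⟪b, ψ x⟫ / ρ x) := hd.z_meas
    have i1 : Integrable (fun x => ρ x ^ 3 * |⟪b, ψ x⟫ / ρ x|) :=
      hd.int_cube_mul _ (continuous_abs.measurable.comp hm) fun x => by
        rw [abs_abs]; exact hd.z_abs_le x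
    have i2 : Integrable (fun x => ρ x ^ 3 * |⟪b, ψ x⟫ / ρ x| ^ ((4:ℝ)/3)) := by
      refine hd.int_cube_mul _ ((continuous_abs.measurable.comp hm).pow_const _) fun x => ?_
      rw [abs_of_nonneg (rpow_nonneg (abs_nonneg _) _)]
      exact rpow_le_one (abs_nonneg _) (hd.z_abs_le x) (by norm_num)
    have e1 : ∫ x, ρ x ^ 3 * (108 / 49 * |⟪b, ψ x⟫ / ρ x| ^ ((4:ℝ)/3) -
        432 / 343 * |⟪b, ψ x⟫ / ρ x|) =
        108 / 49 * (∫ x, ρ x ^ 3 * |⟪b, ψ x⟫ / ρ x| ^ ((4:ℝ)/3)) -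
        432 / 343 * (∫ x, ρ x ^ 3 * |⟪b, ψ x⟫ / ρ x|) := by
      rw [← integral_const_mul, ← integral_const_mul,
        ← integral_sub (i2.const_mul _) (i1.const_mul _)]
      congr 1
      funext x
      ring
    have hPm : MeasurableSet {x | 0 < ⟪b, ψ x⟫} := hd.measP
    have hNm : MeasurableSet {x | ⟪b, ψ x⟫ < 0} :=
      (isOpen_lt hd.fc continuous_const).measurableSet
    have e2 : ∫ x, (ρ x * sg ⟪b, ψ x⟫) * ⟪b, Y⟫ =
        ((∫ x in {x | 0 < ⟪b, ψ x⟫}, ρ x) - ∫ x in {x | ⟪b, ψ x⟫ < 0}, ρ x) *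
          ∫ x, ρ x ^ 3 * (⟪b, ψ x⟫ / ρ x) := by
      rw [hYb b, integral_mul_const]
      congr 1
      rw [← integral_indicator hPm, ← integral_indicator hNm,
        ← integral_sub (h.hρi.indicator hPm) (h.hρi.indicator hNm)]
      congr 1
      funext x
      rcases lt_trichotomy ⟪b, ψ x⟫ 0 with hx | hx | hx
      · rw [indicator_of_notMem (by simpa using hx.le), indicator_of_mem (by simpa using hx),
          Pool.Helper490.Sphere.sg_neg hx]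
        ring
      · rw [indicator_of_notMem (by simp [hx]), indicator_of_notMem (by simp [hx]), hx,
          Pool.Helper490.Sphere.sg_zero]
        ring
      · rw [indicator_of_mem (by simpa using hx), indicator_of_notMem (by simpa using hx.le),
          Pool.Helper490.Sphere.sg_pos hx]
        ring
    rw [e1] at hsc
    rw [e2]
    linarith
  have I1 : Integrable (fun b : E => ∫ x, ρ x ^ 3 * |⟪b, ψ x⟫ / ρ x| ^ ((4:ℝ)/3)) ν :=
    iA.integral_prod_left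
  have I2 : Integrable (fun b : E => ∫ x, ρ x ^ 3 * |⟪b, ψ x⟫ / ρ x|) ν := iB.integral_prod_left
  have I3 : Integrable (fun b : E => ∫ x, (ρ x * sg ⟪b, ψ x⟫) * ⟪b, Y⟫) ν := iZ.integral_prod_left
  have I4 : Integrable (fun b : E => ∫ x, ⟪b, ψ' x⟫ ^ 2 / ρ x) ν := iF.integral_prod_left
  have J1 : Integrable (fun b : E =>
      108 / 49 * ∫ x, ρ x ^ 3 * |⟪b, ψ x⟫ / ρ x| ^ ((4:ℝ)/3)) ν := I1.const_mul _
  have J2 : Integrable (fun b : E => 432 / 343 * ∫ x, ρ x ^ 3 * |⟪b, ψ x⟫ / ρ x|) ν :=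
    I2.const_mul _
  have J3 : Integrable (fun b : E => 216 / 343 * ∫ x, (ρ x * sg ⟪b, ψ x⟫) * ⟪b, Y⟫) ν :=
    I3.const_mul _
  have J12 : Integrable (fun b : E =>
      108 / 49 * (∫ x, ρ x ^ 3 * |⟪b, ψ x⟫ / ρ x| ^ ((4:ℝ)/3)) -
      432 / 343 * ∫ x, ρ x ^ 3 * |⟪b, ψ x⟫ / ρ x|) ν := J1.sub J2
  have J123 : Integrable (fun b : E =>
      108 / 49 * (∫ x, ρ x ^ 3 * |⟪b, ψ x⟫ / ρ x| ^ ((4:ℝ)/3)) -
      432 / 343 * (∫ x, ρ x ^ 3 * |⟪b, ψ x⟫ / ρ x|) -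
      216 / 343 * ∫ x, (ρ x * sg ⟪b, ψ x⟫) * ⟪b, Y⟫) ν := J12.sub J3
  have hint : ∫ b, π ^ 2 * (108 / 49 * (∫ x, ρ x ^ 3 * |⟪b, ψ x⟫ / ρ x| ^ ((4:ℝ)/3)) -
        432 / 343 * (∫ x, ρ x ^ 3 * |⟪b, ψ x⟫ / ρ x|) -
        216 / 343 * (∫ x, (ρ x * sg ⟪b, ψ x⟫) * ⟪b, Y⟫)) ∂ν ≤
      ∫ b, (∫ x, ⟪b, ψ' x⟫ ^ 2 / ρ x) ∂ν :=
    integral_mono_ae (J123.const_mul _) I4 (hb.mono sc)
  rw [integral_const_mul, integral_sub J12 J3, integral_sub J1 J2, integral_const_mul,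
    integral_const_mul, integral_const_mul] at hint
  -- unit vectors
  have unit : ∀ x, 0 < ρ x → ‖(ρ x)⁻¹ • ψ x‖ = 1 := by
    intro x hx
    rw [norm_smul, h.hρ x, norm_inv, Real.norm_eq_abs, abs_of_pos hx, inv_mul_cancel₀ hx.ne']
  have inner_unit : ∀ b x, ⟪b, (ρ x)⁻¹ • ψ x⟫ = ⟪b, ψ x⟫ / ρ x := by
    intro b x
    rw [real_inner_smul_right]
    ring
  have S1 : ∫ b, (∫ x, ρ x ^ 3 * |⟪b, ψ x⟫ / ρ x| ^ ((4:ℝ)/3)) ∂ν = ap * ∫ x, ρ x ^ 3 := by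
    rw [integral_integral_swap iA, ← integral_const_mul]
    congr 1
    funext x
    rw [integral_const_mul]
    rcases (h.ρ0 x).eq_or_lt with h0 | h0
    · rw [← h0]; simp
    · have := hp _ (unit x h0)
      simp only [inner_unit] at this
      rw [this]; ring
  have S2 : ∫ b, (∫ x, ρ x ^ 3 * |⟪b, ψ x⟫ / ρ x|) ∂ν = a1 * ∫ x, ρ x ^ 3 := by
    rw [integral_integral_swap iB, ← integral_const_mul]
    congr 1
    funext x
    rw [integral_const_mul]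
    rcases (h.ρ0 x).eq_or_lt with h0 | h0
    · rw [← h0]; simp
    · have h3 := hsg _ (unit x h0) ((ρ x)⁻¹ • ψ x)
      rw [real_inner_self_eq_norm_sq, unit x h0] at h3
      simp only [inner_unit, Pool.Helper490.Sphere.mul_sg] at h3
      rw [h3]; ring
  have S3 : ∫ b, (∫ x, (ρ x * sg ⟪b, ψ x⟫) * ⟪b, Y⟫) ∂ν = 0 := by
    rw [integral_integral_swap iZ]
    have e : ∀ x, ∫ b, (ρ x * sg ⟪b, ψ x⟫) * ⟪b, Y⟫ ∂ν = a1 * ⟪Y, ψ x⟫ := by
      intro x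
      rcases (h.ρ0 x).eq_or_lt with h0 | h0
      · have hz : ψ x = 0 := by
          rw [← norm_eq_zero, h.hρ x, ← h0]
        rw [← h0, hz]; simp
      · have h3 := hsg _ (unit x h0) Y
        have h4 : ∀ b : E, (ρ x * sg ⟪b, ψ x⟫) * ⟪b, Y⟫ =
            ρ x * (⟪b, Y⟫ * sg ⟪b, (ρ x)⁻¹ • ψ x⟫) := by
          intro b
          rw [real_inner_smul_right, Pool.Helper490.Sphere.sg_smul (inv_pos.2 h0)]
          ring
        simp only [h4]
        rw [integral_const_mul, h3, real_inner_smul_right]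
        field_simp
    simp only [e]
    rw [integral_const_mul]
    have h5 := (innerSL ℝ Y).integral_comp_comm hψi
    simp only [innerSL_apply_apply] at h5
    rw [h5, h0, inner_zero_right, mul_zero]
  have S4 : ∫ b, (∫ x, ⟪b, ψ' x⟫ ^ 2 / ρ x) ∂ν ≤ 4 * a2 * ∫ x, K x := by
    rw [integral_integral_swap iF, ← integral_const_mul]
    have e : ∀ x, ∫ b, ⟪b, ψ' x⟫ ^ 2 / ρ x ∂ν = a2 * ‖ψ' x‖ ^ 2 / ρ x := by
      intro x
      rw [integral_div, h2]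
    refine integral_mono_of_nonneg ?_ (h.hKi.const_mul _) (Eventually.of_forall fun x => ?_)
    · refine Eventually.of_forall fun x => ?_
      simp only [e]
      exact div_nonneg (mul_nonneg ha2 (sq_nonneg _)) (h.ρ0 x)
    · simp only [e]
      rcases (h.ρ0 x).eq_or_lt with h0 | h0
      · rw [← h0, div_zero]
        exact mul_nonneg (mul_nonneg (by norm_num) ha2) (h.hK0 x)
      · rw [div_le_iff₀ h0]
        have := mul_le_mul_of_nonneg_left (h.hK x) ha2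
        linarith
  rw [S1, S2, S3] at hint
  have := hint.trans S4
  linarith

end Vec

/-- The vector valued inequality in three dimensional space. -/
theorem vec_three {ψ ψ' : ℝ → EuclideanSpace ℝ (Fin 3)} {ρ K : ℝ → ℝ} (h : Vec ψ ψ' ρ K)
    (hmass : ∫ x, ρ x = 2) (h0 : ∫ x, ψ x = 0) :
    81 * π ^ 2 / 343 * ∫ x, ρ x ^ 3 ≤ ∫ x, K x := by
  obtain ⟨ν, hν, hb, h2, hp, hsg⟩ := Pool.Helper490.Sphere.exists_sphere_measure
  have := h.averaged ν hb (1 / 2) (1 / 3) (3 / 7) h2 (by norm_num) hp hsg hmass h0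
  linarith

end Pool.Helper490.LT
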