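import Pool.Agent.Helper490.LTH1C

set_option autoImplicit false

open MeasureTheory Set Filter Topology Real
open scoped ENNReal

namespace Pool.Helper490.Eig

/-- `u` is the continuous representative of a function of `H¹(ℝ)` with weak derivative `g`. -/
structure IsSobolev (u g : ℝ → ℂ) : Prop where
  memLp : MemLp u 2
  memLp_deriv : MemLp g 2
  integral_deriv : ∀ a b, u b - u a = ∫ x in a..b, g x

/-- The `(n + 1)`-th min-max value of the quadratic form of `-d²/dx² + V` on `H¹(ℝ)`. -/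
noncomputable def minMax (V : ℝ → ℝ) (n : ℕ) : ℝ :=
  sInf {lam : ℝ | ∃ W : Submodule ℂ (ℝ → ℂ), Module.finrank ℂ W = n + 1 ∧
    ∀ u ∈ W, ∃ g, IsSobolev u g ∧
      (∫ x, ‖g x‖ ^ 2) + ∫ x, V x * ‖u x‖ ^ 2 ≤ lam * ∫ x, ‖u x‖ ^ 2}

namespace IsSobolev

variable {u g : ℝ → ℂ} (h : IsSobolev u g)
include h

lemma intervalIntegrable (a b : ℝ) : IntervalIntegrable g volume a b := by
  have h1 : LocallyIntegrable g volume := h.memLp_deriv.locallyIntegrable (by norm_num)
  exact intervalIntegrable_iff.2 ((h1.integrableOn_isCompact isCompact_uIcc).mono_set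
    uIoc_subset_uIcc)

lemma continuous : Continuous u := by
  have : u = fun x => u 0 + ∫ t in (0:ℝ)..x, g t := by
    funext x; rw [← h.integral_deriv 0 x]; ring
  rw [this]
  exact continuous_const.add (intervalIntegral.continuous_primitive h.intervalIntegrable 0)

lemma sq_integrable : Integrable (fun x => ‖u x‖ ^ 2) := h.memLp.integrable_norm_pow (by norm_num)

lemma const_mul (c : ℂ) : IsSobolev (fun x => c * u x) (fun x => c * g x) := by
  refine ⟨h.memLp.const_mul _, h.memLp_deriv.const_mul _, fun a b => ?_⟩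
  rw [intervalIntegral.integral_const_mul, ← h.integral_deriv]
  ring

lemma integral_pos (hu : u ≠ 0) : 0 < ∫ x, ‖u x‖ ^ 2 := by
  have h0 : 0 ≤ ∫ x, ‖u x‖ ^ 2 := integral_nonneg fun x => sq_nonneg _
  rcases h0.eq_or_lt with h1 | h1
  · exfalso
    have h2 : (fun x => ‖u x‖ ^ 2) =ᵐ[volume] 0 :=
      (integral_eq_zero_iff_of_nonneg (fun x => sq_nonneg _) h.sq_integrable).1 h1.symm
    have h3 : (fun x => ‖u x‖ ^ 2) = 0 :=
      Continuous.ae_eq_iff_eq volume (h.continuous.norm.pow 2) continuous_const |>.1 h2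
    apply hu
    funext x
    have := congrFun h3 x
    simpa using this
  · exact h1

end IsSobolev

lemma integrable_star_mul {u v : ℝ → ℂ} (hu : MemLp u 2) (hv : MemLp v 2) :
    Integrable (fun x => star (u x) * v x) := by
  have h1 : MemLp (fun x => star (u x)) 2 := hu.star
  exact h1.integrable_mul hv

/-- Successive choice of an orthonormal family in spaces of growing dimension. -/
lemma exists_orthonormal (J : Finset ℕ) (W : ℕ → Submodule ℂ (ℝ → ℂ))
    (hW : ∀ n ∈ J, Module.finrank ℂ (W n) = n + 1)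
    (hS : ∀ n ∈ J, ∀ u ∈ W n, ∃ g, IsSobolev u g) (k : ℕ) :
    ∃ u : ℕ → ℝ → ℂ, (∀ n ∈ J, n < k → u n ∈ W n) ∧
      ∀ n ∈ J, ∀ m ∈ J, n < k → m < k →
        ∫ x, star (u n x) * u m x = if n = m then (1 : ℂ) else 0 := by
  induction k with
  | zero => exact ⟨fun _ => 0, fun n _ hn => absurd hn (Nat.not_lt_zero n),
      fun n _ m _ hn => absurd hn (Nat.not_lt_zero n)⟩
  | succ k ih =>
    obtain ⟨u, hu, ho⟩ := ih
    by_cases hk : k ∈ J
    · have hL2 : ∀ n ∈ J, n < k → MemLp (u n) 2 := fun n hn hnk => by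
        obtain ⟨g, hg⟩ := hS n hn _ (hu n hn hnk)
        exact hg.memLp
      have hWL2 : ∀ w ∈ W k, MemLp w 2 := fun w hw => by
        obtain ⟨g, hg⟩ := hS k hk w hw
        exact hg.memLp
      classical
      let T : W k →ₗ[ℂ] (Fin k → ℂ) :=
        { toFun := fun w j => if (j : ℕ) ∈ J then ∫ x, star (u j x) * (w : ℝ → ℂ) x else 0
          map_add' := fun a b => by
            funext j
            by_cases hj : (j : ℕ) ∈ J
            · simp only [hj, if_true, Pi.add_apply]
              rw [← integral_add (integrable_star_mul (hL2 j hj j.2) (hWL2 _ a.2))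
                (integrable_star_mul (hL2 j hj j.2) (hWL2 _ b.2))]
              congr 1
              funext x
              simp [mul_add]
            · simp [hj]
          map_smul' := fun c a => by
            funext j
            by_cases hj : (j : ℕ) ∈ J
            · simp only [hj, if_true, Pi.smul_apply, RingHom.id_apply, smul_eq_mul]
              rw [← integral_const_mul]
              congr 1
              funext x
              simp only [SetLike.val_smul, Pi.smul_apply, smul_eq_mul]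
              ring
            · simp [hj] }
      have hfin : FiniteDimensional ℂ (W k) :=
        FiniteDimensional.of_finrank_pos (by rw [hW k hk]; exact Nat.succ_pos k)
      have hker : LinearMap.ker T ≠ ⊥ := by
        refine LinearMap.ker_ne_bot_of_finrank_lt ?_
        rw [hW k hk, Module.finrank_fin_fun]
        exact Nat.lt_succ_self k
      obtain ⟨w, hwT, hw0⟩ := (Submodule.ne_bot_iff _).1 hker
      have hwT' : T w = 0 := hwT
      have hw0' : (w : ℝ → ℂ) ≠ 0 := fun h => hw0 (Subtype.ext h)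
      obtain ⟨g, hg⟩ := hS k hk _ w.2
      have hpos := hg.integral_pos hw0'
      set m : ℝ := ∫ x, ‖(w : ℝ → ℂ) x‖ ^ 2 with hm
      set c : ℝ := (√m)⁻¹ with hc
      have hc2 : c ^ 2 = m⁻¹ := by rw [hc, inv_pow, Real.sq_sqrt hpos.le]
      set v : ℝ → ℂ := (c : ℂ) • (w : ℝ → ℂ) with hv
      have hvW : v ∈ W k := (W k).smul_mem _ w.2
      have horth : ∀ n ∈ J, n < k → ∫ x, star (u n x) * v x = 0 := by
        intro n hn hnk
        have h1 := congrFun hwT' ⟨n, hnk⟩
        have h2 : ∫ x, star (u n x) * (w : ℝ → ℂ) x = 0 := by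
          simpa [T, hn] using h1
        have h3 : ∀ x, star (u n x) * v x = (c : ℂ) * (star (u n x) * (w : ℝ → ℂ) x) := by
          intro x
          simp only [hv, Pi.smul_apply, smul_eq_mul]
          ring
        simp only [h3]
        rw [integral_const_mul, h2, mul_zero]
      have horth' : ∀ n ∈ J, n < k → ∫ x, star (v x) * u n x = 0 := by
        intro n hn hnk
        have h1 : ∀ x, star (v x) * u n x = star (star (u n x) * v x) := by
          intro x
          rw [star_mul', star_star, mul_comm]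
        simp only [h1]
        have h2 := horth n hn hnk
        have h3 : ∫ x, star (star (u n x) * v x) = star (∫ x, star (u n x) * v x) := by
          have := integral_conj (f := fun x => star (u n x) * v x) (μ := (volume : Measure ℝ)) (𝕜 := ℂ)
          exact this
        rw [h3, h2, star_zero]
      have hnorm : ∫ x, star (v x) * v x = 1 := by
        have h1 : ∀ x, star (v x) * v x = ((m⁻¹ * ‖(w : ℝ → ℂ) x‖ ^ 2 : ℝ) : ℂ) := by
          intro x
          have h2 : ‖v x‖ ^ 2 = m⁻¹ * ‖(w : ℝ → ℂ) x‖ ^ 2 := by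
            simp only [hv, Pi.smul_apply, smul_eq_mul]
            rw [norm_mul, mul_pow, Complex.norm_real, Real.norm_eq_abs, sq_abs, hc2]
          rw [← h2, ← Complex.normSq_eq_norm_sq, mul_comm]
          exact Complex.mul_conj _
        simp only [h1]
        rw [integral_complex_ofReal, integral_const_mul, ← hm, inv_mul_cancel₀ hpos.ne']
        simp
      refine ⟨Function.update u k v, ?_, ?_⟩
      · intro n hn hnk
        by_cases hnk' : n = k
        · subst hnk'; rw [Function.update_self]; exact hvW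
        · rw [Function.update_of_ne hnk']
          exact hu n hn (lt_of_le_of_ne (Nat.lt_succ_iff.1 hnk) hnk')
      · intro n hn m' hm' hnk hmk
        by_cases hnk' : n = k
        · by_cases hmk' : m' = k
          · rw [hnk', hmk', Function.update_self, if_pos rfl]
            exact hnorm
          · rw [hnk', Function.update_self, Function.update_of_ne hmk', if_neg (Ne.symm hmk')]
            exact horth' m' hm' (lt_of_le_of_ne (Nat.lt_succ_iff.1 hmk) hmk')
        · by_cases hmk' : m' = k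
          · rw [hmk', Function.update_self, Function.update_of_ne hnk', if_neg hnk']
            exact horth n hn (lt_of_le_of_ne (Nat.lt_succ_iff.1 hnk) hnk')
          · rw [Function.update_of_ne hnk', Function.update_of_ne hmk']
            exact ho n hn m' hm' (lt_of_le_of_ne (Nat.lt_succ_iff.1 hnk) hnk')
              (lt_of_le_of_ne (Nat.lt_succ_iff.1 hmk) hmk')
    · refine ⟨u, ?_, ?_⟩
      · intro n hn hnk
        exact hu n hn (lt_of_le_of_ne (Nat.lt_succ_iff.1 hnk) fun h => hk (h ▸ hn))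
      · intro n hn m' hm' hnk hmk
        exact ho n hn m' hm' (lt_of_le_of_ne (Nat.lt_succ_iff.1 hnk) fun h => hk (h ▸ hn))
          (lt_of_le_of_ne (Nat.lt_succ_iff.1 hmk) fun h => hk (h ▸ hm'))

/-- The value of the constant. -/
noncomputable def L11 : ℝ := 4 / (3 * √3 * π)

/-- The pointwise Young inequality. -/
lemma young {a ρ : ℝ} (ha : 0 ≤ a) (hρ : 0 ≤ ρ) :
    a * ρ ≤ π ^ 2 / 4 * ρ ^ 3 + L11 * a ^ ((3:ℝ) / 2) := by
  set b : ℝ := √a with hb
  have hb0 : 0 ≤ b := Real.sqrt_nonneg a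
  have hb2 : b ^ 2 = a := Real.sq_sqrt ha
  have hb3 : a ^ ((3:ℝ) / 2) = b ^ 3 := by
    rw [← hb2, ← Real.rpow_natCast, ← Real.rpow_natCast, ← Real.rpow_mul hb0]
    norm_num
  have h3 : √3 ^ 2 = 3 := Real.sq_sqrt (by norm_num)
  have h30 : 0 < √3 := Real.sqrt_pos.2 (by norm_num)
  have hπ := pi_pos
  set s : ℝ := √3 with hs
  set t : ℝ := s * π / 2 * ρ with ht
  have ht0 : 0 ≤ t := by positivity
  rw [hb3, ← hb2, L11]
  have key : 0 ≤ (2 / (3 * (s * π))) * ((t - b) ^ 2 * (t + 2 * b)) := by positivity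
  have e : (2 / (3 * (s * π))) * ((t - b) ^ 2 * (t + 2 * b)) =
      π ^ 2 / 4 * ρ ^ 3 + 4 / (3 * s * π) * b ^ 3 - b ^ 2 * ρ := by
    rw [ht]
    have e1 : s ^ 3 = 3 * s := by rw [pow_succ, h3]
    field_simp
    ring_nf
    rw [e1]
    ring
  linarith

lemma holder_inst : ENNReal.HolderConjugate ((3:ℝ≥0∞) / 2) 3 := by
  refine ⟨?_⟩
  rw [ENNReal.inv_div (by simp) (by simp), inv_one, ← one_div, ENNReal.div_add_div_same]
  norm_num
  exact ENNReal.div_self (by simp) (by simp)

/-- The eigenvalue sum bound for an orthonormal family. -/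
theorem family_bound {N : ℕ} (u g : Fin N → ℝ → ℂ) (hs : ∀ n, IsSobolev (u n) (g n))
    (ho : ∀ n m, ∫ x, star (u n x) * u m x = if n = m then 1 else 0)
    (V : ℝ → ℝ) (hV : MemLp V (3 / 2)) :
    -(∑ n, ((∫ x, ‖g n x‖ ^ 2) + ∫ x, V x * ‖u n x‖ ^ 2)) ≤
      L11 * ∫ x, (max (-V x) 0) ^ ((3:ℝ) / 2) := by
  obtain ⟨hρ3, hsharp⟩ := Pool.Helper490.Calib.sharp_H1_complex u g (fun n => (hs n).memLp)
    (fun n => (hs n).memLp_deriv) (fun n => (hs n).integral_deriv) ho
  set ρ : ℝ → ℝ := fun x => ∑ n, ‖u n x‖ ^ 2 with hρ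
  have hρc : Continuous ρ := continuous_finsetSum _ fun n _ => ((hs n).continuous.norm.pow 2)
  have hρ0 : ∀ x, 0 ≤ ρ x := fun x => Finset.sum_nonneg fun n _ => sq_nonneg _
  have hρm : MemLp ρ 3 := by
    rw [← integrable_norm_rpow_iff hρc.aestronglyMeasurable (by norm_num) (by norm_num)]
    refine hρ3.congr (Eventually.of_forall fun x => ?_)
    simp only [ENNReal.toReal_ofNat]
    rw [Real.norm_eq_abs, abs_of_nonneg (hρ0 x)]
    exact_mod_cast (Real.rpow_natCast (ρ x) 3).symm
  have hnm : ∀ n, MemLp (fun x => ‖u n x‖ ^ 2) 3 := by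
    intro n
    refine hρm.mono ((hs n).continuous.norm.pow 2).aestronglyMeasurable
      (Eventually.of_forall fun x => ?_)
    rw [Real.norm_eq_abs, Real.norm_eq_abs, abs_of_nonneg (sq_nonneg _), abs_of_nonneg (hρ0 x)]
    exact Finset.single_le_sum (f := fun n => ‖u n x‖ ^ 2) (fun n _ => sq_nonneg _)
      (Finset.mem_univ n)
  have hinst := holder_inst
  have hVn : ∀ n, Integrable (fun x => V x * ‖u n x‖ ^ 2) := fun n => hV.integrable_mul (hnm n)
  have hVρ : Integrable (fun x => V x * ρ x) := hV.integrable_mul hρm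
  have hVp : Integrable (fun x => (max (-V x) 0) ^ ((3:ℝ) / 2)) := by
    have h1 : Integrable (fun x => ‖V x‖ ^ ((3:ℝ) / 2)) := by
      have h2 := (integrable_norm_rpow_iff hV.1 (p := 3 / 2) (by norm_num)
        (ENNReal.div_ne_top (by simp) (by simp))).2 hV
      have h3 : ((3:ℝ≥0∞) / 2).toReal = 3 / 2 := by
        rw [ENNReal.toReal_div]; simp
      rwa [h3] at h2
    have hm : AEStronglyMeasurable (fun x => (max (-V x) 0) ^ ((3:ℝ) / 2)) volume :=
      ((hV.1.aemeasurable.neg.max aemeasurable_const).pow_const _).aestronglyMeasurable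
    refine h1.mono' hm (Eventually.of_forall fun x => ?_)
    have h4 : 0 ≤ max (-V x) 0 := le_max_right _ _
    rw [Real.norm_eq_abs, abs_of_nonneg (Real.rpow_nonneg h4 _)]
    refine Real.rpow_le_rpow h4 ?_ (by norm_num)
    rw [Real.norm_eq_abs]
    exact max_le (neg_le_abs _) (abs_nonneg _)
  have hsum : ∑ n, ∫ x, V x * ‖u n x‖ ^ 2 = ∫ x, V x * ρ x := by
    rw [← integral_finsetSum _ fun n _ => hVn n]
    congr 1
    funext x
    rw [hρ, Finset.mul_sum]
  rw [Finset.sum_add_distrib, hsum]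
  have hpt : ∀ x, -(V x * ρ x) ≤ π ^ 2 / 4 * ρ x ^ 3 + L11 * (max (-V x) 0) ^ ((3:ℝ) / 2) := by
    intro x
    have h1 := young (a := max (-V x) 0) (ρ := ρ x) (le_max_right _ _) (hρ0 x)
    have h2 : -(V x * ρ x) ≤ max (-V x) 0 * ρ x := by
      rw [← neg_mul]
      exact mul_le_mul_of_nonneg_right (le_max_left _ _) (hρ0 x)
    exact h2.trans h1
  have hint := integral_mono hVρ.neg ((hρ3.const_mul (π ^ 2 / 4)).add (hVp.const_mul L11)) hpt
  simp only [Pi.neg_apply, Pi.add_apply] at hint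
  rw [integral_neg, integral_add (hρ3.const_mul _) (hVp.const_mul _), integral_const_mul,
    integral_const_mul] at hint
  linarith

/-- The sum of the absolute values of the negative min-max values. -/
theorem minMax_bound (V : ℝ → ℝ) (hV : MemLp V (3 / 2)) (N : ℕ) :
    ∑ n ∈ Finset.range N, max (-minMax V n) 0 ≤ L11 * ∫ x, (max (-V x) 0) ^ ((3:ℝ) / 2) := by
  classical
  set J : Finset ℕ := (Finset.range N).filter fun n => minMax V n < 0 with hJ
  refine le_of_forall_pos_le_add fun ε hε => ?_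
  set δ : ℝ := ε / (N + 1) with hδ
  have hδ0 : 0 < δ := by positivity
  have hex : ∀ n ∈ J, ∃ lam, lam < minMax V n + δ ∧ ∃ W : Submodule ℂ (ℝ → ℂ),
      Module.finrank ℂ W = n + 1 ∧ ∀ u ∈ W, ∃ g, IsSobolev u g ∧
      (∫ x, ‖g x‖ ^ 2) + ∫ x, V x * ‖u x‖ ^ 2 ≤ lam * ∫ x, ‖u x‖ ^ 2 := by
    intro n hn
    have hneg : minMax V n < 0 := (Finset.mem_filter.1 hn).2
    have hne : {lam : ℝ | ∃ W : Submodule ℂ (ℝ → ℂ), Module.finrank ℂ W = n + 1 ∧
        ∀ u ∈ W, ∃ g, IsSobolev u g ∧
        (∫ x, ‖g x‖ ^ 2) + ∫ x, V x * ‖u x‖ ^ 2 ≤ lam * ∫ x, ‖u x‖ ^ 2}.Nonempty := by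
      by_contra hemp
      rw [not_nonempty_iff_eq_empty] at hemp
      rw [minMax, hemp, Real.sInf_empty] at hneg
      exact lt_irrefl _ hneg
    obtain ⟨lam, hlam, hlt⟩ := exists_lt_of_csInf_lt hne
      (show sInf _ < minMax V n + δ by rw [← minMax]; linarith)
    exact ⟨lam, hlt, hlam⟩
  choose! lam hlam W hWf hW using hex
  obtain ⟨u, huW, huo⟩ := exists_orthonormal J W hWf
    (fun n hn u hu => (hW n hn u hu).imp fun g hg => hg.1) N
  have hlt : ∀ n ∈ J, n < N := fun n hn => Finset.mem_range.1 (Finset.mem_filter.1 hn).1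
  have hg : ∀ n ∈ J, ∃ g, IsSobolev (u n) g ∧
      (∫ x, ‖g x‖ ^ 2) + ∫ x, V x * ‖u n x‖ ^ 2 ≤ lam n * ∫ x, ‖u n x‖ ^ 2 :=
    fun n hn => hW n hn _ (huW n hn (hlt n hn))
  choose! g hgS hgQ using hg
  have hunit : ∀ n ∈ J, ∫ x, ‖u n x‖ ^ 2 = 1 := by
    intro n hn
    have h1 := huo n hn n hn (hlt n hn) (hlt n hn)
    rw [if_pos rfl] at h1
    have h2 : ∀ x, star (u n x) * u n x = ((‖u n x‖ ^ 2 : ℝ) : ℂ) := by
      intro x
      rw [← Complex.normSq_eq_norm_sq, mul_comm]
      exact Complex.mul_conj _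
    simp only [h2] at h1
    rw [integral_complex_ofReal] at h1
    exact_mod_cast h1
  set e := J.equivFin with he
  have hfam := family_bound (fun i : Fin J.card => u (e.symm i)) (fun i => g (e.symm i))
    (fun i => hgS _ (e.symm i).2) (by
      intro i j
      rw [huo _ (e.symm i).2 _ (e.symm j).2 (hlt _ (e.symm i).2) (hlt _ (e.symm j).2)]
      simp only [Subtype.val_inj, EmbeddingLike.apply_eq_iff_eq]) V hV
  have hsumJ : ∑ i : Fin J.card, ((∫ x, ‖g (e.symm i) x‖ ^ 2) +
      ∫ x, V x * ‖u (e.symm i) x‖ ^ 2) =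
      ∑ n ∈ J, ((∫ x, ‖g n x‖ ^ 2) + ∫ x, V x * ‖u n x‖ ^ 2) := by
    rw [← Finset.sum_coe_sort J]
    exact Equiv.sum_comp e.symm
      (fun n : J => (∫ x, ‖g n x‖ ^ 2) + ∫ x, V x * ‖u n x‖ ^ 2)
  rw [hsumJ] at hfam
  have h1 : ∑ n ∈ Finset.range N, max (-minMax V n) 0 = ∑ n ∈ J, -minMax V n := by
    rw [hJ, Finset.sum_filter]
    refine Finset.sum_congr rfl fun n _ => ?_
    by_cases hn : minMax V n < 0
    · rw [if_pos hn, max_eq_left (by linarith)]
    · rw [if_neg hn, max_eq_right (by linarith)]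
  rw [h1]
  have h2 : ∑ n ∈ J, ((∫ x, ‖g n x‖ ^ 2) + ∫ x, V x * ‖u n x‖ ^ 2) ≤
      ∑ n ∈ J, (minMax V n + δ) := by
    refine Finset.sum_le_sum fun n hn => ?_
    have h3 := hgQ n hn
    rw [hunit n hn, mul_one] at h3
    exact h3.trans (hlam n hn).le
  have hcard : (J.card : ℝ) ≤ N := by
    have : J.card ≤ (Finset.range N).card := Finset.card_filter_le _ _
    rw [Finset.card_range] at this
    exact_mod_cast this
  have h2' : ∑ n ∈ J, (minMax V n + δ) = (∑ n ∈ J, minMax V n) + (J.card : ℝ) * δ := by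
    rw [Finset.sum_add_distrib, Finset.sum_const, nsmul_eq_mul]
  rw [h2'] at h2
  rw [Finset.sum_neg_distrib]
  have h4 : (J.card : ℝ) * δ ≤ ε := by
    calc (J.card : ℝ) * δ ≤ N * δ := mul_le_mul_of_nonneg_right hcard hδ0.le
      _ ≤ (N + 1) * δ := mul_le_mul_of_nonneg_right (by linarith) hδ0.le
      _ = ε := by rw [hδ]; field_simp
  linarith

end Pool.Helper490.Eig
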