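import Pool.Agent.Helper490.CalibComplex

set_option autoImplicit false

open MeasureTheory Set Filter Topology Real
open scoped RealInnerProductSpace ENNReal

namespace Pool.Helper490.Calib

section average

variable {F : Type*} [NormedAddCommGroup F] [NormedSpace ℝ F]

/-- The moving average. -/
noncomputable def Av (h : ℝ) (f : ℝ → F) (x : ℝ) : F := ∫ s in (0:ℝ)..1, f (x + h * s)

/-- Jensen's inequality for the square. -/
lemma sq_lintegral_le {α : Type*} [MeasurableSpace α] (μ : Measure α) [IsProbabilityMeasure μ]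
    (φ : α → ℝ≥0∞) (hφ : AEMeasurable φ μ) : (∫⁻ a, φ a ∂μ) ^ 2 ≤ ∫⁻ a, φ a ^ 2 ∂μ := by
  have h := ENNReal.lintegral_mul_le_Lp_mul_Lq μ Real.HolderConjugate.two_two hφ
    (aemeasurable_const (b := (1 : ℝ≥0∞)))
  simp only [Pi.mul_apply, mul_one, ENNReal.one_rpow, lintegral_const, measure_univ] at h
  have h2 : (∫⁻ a, φ a ∂μ) ^ (2:ℕ) ≤ ((∫⁻ a, φ a ^ (2:ℝ) ∂μ) ^ ((1:ℝ) / 2)) ^ (2:ℕ) :=
    pow_le_pow_left' h 2
  have h3 : ((∫⁻ a, φ a ^ (2:ℝ) ∂μ) ^ ((1:ℝ) / 2)) ^ (2:ℕ) = ∫⁻ a, φ a ^ (2:ℝ) ∂μ := by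
    rw [← ENNReal.rpow_natCast, ← ENNReal.rpow_mul]
    norm_num
  rw [h3] at h2
  refine h2.trans (le_of_eq ?_)
  congr 1
  funext a
  exact_mod_cast ENNReal.rpow_natCast (φ a) 2

lemma Av_lintegral (h : ℝ) (f : ℝ → F) (hf : StronglyMeasurable f) :
    ∫⁻ x, ‖Av h f x‖ₑ ^ 2 ≤ ∫⁻ x, ‖f x‖ₑ ^ 2 := by
  set μ : Measure ℝ := volume.restrict (Ioc (0:ℝ) 1) with hμ
  have hprob : IsProbabilityMeasure μ := ⟨by
    rw [hμ, Measure.restrict_apply_univ, Real.volume_Ioc]; simp⟩
  have hmeas : Measurable (fun p : ℝ × ℝ => ‖f (p.1 + h * p.2)‖ₑ ^ 2) := by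
    have : StronglyMeasurable (fun p : ℝ × ℝ => f (p.1 + h * p.2)) :=
      hf.comp_measurable (by fun_prop)
    exact this.enorm.pow_const 2
  calc ∫⁻ x, ‖Av h f x‖ₑ ^ 2 ≤ ∫⁻ x, ∫⁻ s, ‖f (x + h * s)‖ₑ ^ 2 ∂μ := by
        refine lintegral_mono fun x => ?_
        have h1 : ‖Av h f x‖ₑ ≤ ∫⁻ s, ‖f (x + h * s)‖ₑ ∂μ := by
          rw [Av, intervalIntegral.integral_of_le zero_le_one]
          exact enorm_integral_le_lintegral_enorm _
        have h2 : AEMeasurable (fun s => ‖f (x + h * s)‖ₑ) μ := by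
          have : StronglyMeasurable (fun s : ℝ => f (x + h * s)) :=
            hf.comp_measurable (by fun_prop)
          exact this.enorm.aemeasurable
        exact (pow_le_pow_left' h1 2).trans (sq_lintegral_le μ _ h2)
    _ = ∫⁻ s, ∫⁻ x, ‖f (x + h * s)‖ₑ ^ 2 ∂volume ∂μ :=
        lintegral_lintegral_swap hmeas.aemeasurable
    _ = ∫⁻ s, ∫⁻ x, ‖f x‖ₑ ^ 2 ∂volume ∂μ := by
        congr 1
        funext s
        exact lintegral_add_right_eq_self (μ := volume) (fun x => ‖f x‖ₑ ^ 2) (h * s)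
    _ = ∫⁻ x, ‖f x‖ₑ ^ 2 := by
        rw [lintegral_const, measure_univ, mul_one]

lemma lintegral_enorm_sq (f : ℝ → F) (hi : Integrable (fun x => ‖f x‖ ^ 2)) :
    ∫⁻ x, ‖f x‖ₑ ^ 2 = ENNReal.ofReal (∫ x, ‖f x‖ ^ 2) := by
  rw [ofReal_integral_eq_lintegral_ofReal hi (Eventually.of_forall fun x => sq_nonneg _)]
  congr 1
  funext x
  rw [ENNReal.ofReal_pow (norm_nonneg _), ofReal_norm_eq_enorm]

lemma Av_bound (h : ℝ) (f : ℝ → F) (hf : StronglyMeasurable f)
    (hi : Integrable (fun x => ‖f x‖ ^ 2)) (hA : AEStronglyMeasurable (Av h f)) :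
    Integrable (fun x => ‖Av h f x‖ ^ 2) ∧ ∫ x, ‖Av h f x‖ ^ 2 ≤ ∫ x, ‖f x‖ ^ 2 := by
  have h1 := Av_lintegral h f hf
  rw [lintegral_enorm_sq f hi] at h1
  have h0 : 0 ≤ ∫ x, ‖f x‖ ^ 2 := integral_nonneg fun x => sq_nonneg _
  have hconv : ∀ x, ENNReal.ofReal (‖Av h f x‖ ^ 2) = ‖Av h f x‖ₑ ^ 2 := fun x => by
    rw [ENNReal.ofReal_pow (norm_nonneg _), ofReal_norm_eq_enorm]
  have hI : Integrable (fun x => ‖Av h f x‖ ^ 2) := by
    refine ⟨hA.norm.pow 2, ?_⟩
    rw [hasFiniteIntegral_iff_ofReal (Eventually.of_forall fun x => sq_nonneg _)]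
    simp only [hconv]
    exact h1.trans_lt ENNReal.ofReal_lt_top
  refine ⟨hI, ?_⟩
  rw [lintegral_enorm_sq _ hI] at h1
  exact (ENNReal.ofReal_le_ofReal_iff h0).1 h1

end average

variable {E : Type*} [NormedAddCommGroup E] [InnerProductSpace ℝ E] [FiniteDimensional ℝ E]

/-- The sharp inequality for functions with a square integrable weak derivative. -/
theorem sharp_H1 (u g : ℝ → E) (hu2 : MemLp u 2) (hg2 : MemLp g 2)
    (hug : ∀ a b, u b - u a = ∫ x in a..b, g x)
    (hbes : ∀ v : E, ∫ x, ⟪u x, v⟫ ^ 2 ≤ ‖v‖ ^ 2) :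
    Integrable (fun x => (‖u x‖ ^ 2) ^ 3) ∧
      π ^ 2 / 4 * ∫ x, (‖u x‖ ^ 2) ^ 3 ≤ ∫ x, ‖g x‖ ^ 2 := by
  -- a measurable representative of the derivative
  set G : ℝ → E := hg2.1.mk g with hG
  have hGm : StronglyMeasurable G := hg2.1.stronglyMeasurable_mk
  have hgG : g =ᵐ[volume] G := hg2.1.ae_eq_mk
  have hG2 : MemLp G 2 := (memLp_congr_ae hgG).1 hg2
  have hGi : ∀ a b, IntervalIntegrable G volume a b := by
    intro a b
    have h1 : LocallyIntegrable G volume := hG2.locallyIntegrable (by norm_num)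
    exact intervalIntegrable_iff.2 ((h1.integrableOn_isCompact isCompact_uIcc).mono_set
      uIoc_subset_uIcc)
  have huG : ∀ a b, u b - u a = ∫ x in a..b, G x := by
    intro a b
    rw [hug a b]
    exact intervalIntegral.integral_congr_ae (hgG.mono fun x hx _ => hx)
  have hu2i : Integrable (fun x => ‖u x‖ ^ 2) := hu2.integrable_norm_pow (by norm_num)
  have hG2i : Integrable (fun x => ‖G x‖ ^ 2) := hG2.integrable_norm_pow (by norm_num)
  have hgval : ∫ x, ‖g x‖ ^ 2 = ∫ x, ‖G x‖ ^ 2 :=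
    integral_congr_ae (hgG.mono fun x hx => by simp only [hx])
  have huc : Continuous u := by
    have : u = fun x => u 0 + ∫ t in (0:ℝ)..x, G t := by
      funext x; rw [← huG 0 x]; abel
    rw [this]
    exact continuous_const.add (intervalIntegral.continuous_primitive hGi 0)
  have hum : StronglyMeasurable u := huc.stronglyMeasurable
  -- the averages
  set U : ℝ → E := fun x => ∫ t in (0:ℝ)..x, u t with hU
  have hUd : ∀ x, HasDerivAt U (u x) x := fun x =>
    intervalIntegral.integral_hasDerivAt_right (huc.intervalIntegrable _ _)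
      (huc.stronglyMeasurableAtFilter _ _) huc.continuousAt
  have hAu : ∀ h : ℝ, h ≠ 0 → ∀ x, Av h u x = h⁻¹ • (U (x + h) - U x) := by
    intro h hh x
    rw [Av, intervalIntegral.integral_comp_add_mul u hh x]
    congr 1
    rw [mul_zero, add_zero, mul_one]
    simp only [hU]
    rw [intervalIntegral.integral_interval_sub_left (huc.intervalIntegrable _ _)
      (huc.intervalIntegrable _ _)]
  have hAG : ∀ h : ℝ, h ≠ 0 → ∀ x, Av h G x = h⁻¹ • (u (x + h) - u x) := by
    intro h hh x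
    rw [Av, intervalIntegral.integral_comp_add_mul G hh x]
    congr 1
    rw [mul_zero, add_zero, mul_one, huG]
  have hAd : ∀ h : ℝ, h ≠ 0 → ∀ x, HasDerivAt (Av h u) (Av h G x) x := by
    intro h hh x
    have h1 : HasDerivAt (fun x => U (x + h)) (u (x + h)) x := (hUd (x + h)).comp_add_const x h
    have h2 := (h1.sub (hUd x)).const_smul h⁻¹
    rw [hAG h hh x]
    have h3 : Av h u = fun x => h⁻¹ • (U (x + h) - U x) := funext (hAu h hh)
    rw [h3]
    exact h2
  have hAGc : ∀ h : ℝ, h ≠ 0 → Continuous (Av h G) := by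
    intro h hh
    have h3 : Av h G = fun x => h⁻¹ • (u (x + h) - u x) := funext (hAG h hh)
    rw [h3]
    exact ((huc.comp (continuous_add_const h)).sub huc).const_smul _
  have hAuc : ∀ h : ℝ, h ≠ 0 → Continuous (Av h u) := fun h hh =>
    continuous_iff_continuousAt.2 fun x => (hAd h hh x).continuousAt
  have hsys : ∀ h : ℝ, h ≠ 0 → Sys (Av h u) (Av h G) := by
    intro h hh
    refine ⟨hAd h hh, hAGc h hh, ?_, ?_, ?_⟩
    · exact (Av_bound h u hum hu2i (hAuc h hh).aestronglyMeasurable).1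
    · exact (Av_bound h G hGm hG2i (hAGc h hh).aestronglyMeasurable).1
    · intro v
      have h1 : ∀ x, ⟪Av h u x, v⟫ = Av h (fun y => ⟪u y, v⟫) x := by
        intro x
        simp only [Av]
        rw [real_inner_comm]
        have hi : IntervalIntegrable (fun s => u (x + h * s)) volume 0 1 :=
          (huc.comp (by fun_prop : Continuous fun s : ℝ => x + h * s)).intervalIntegrable _ _
        have := (innerSL ℝ v).intervalIntegral_comp_comm hi
        simp only [innerSL_apply_apply] at this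
        rw [← this]
        refine intervalIntegral.integral_congr fun s _ => ?_
        exact real_inner_comm _ _
      have hc : Continuous fun y => ⟪u y, v⟫ := huc.inner continuous_const
      have hi2 : Integrable (fun y => ‖⟪u y, v⟫‖ ^ 2) := by
        refine (hu2i.mul_const (‖v‖ ^ 2)).mono' (hc.norm.pow 2).aestronglyMeasurable
          (Eventually.of_forall fun y => ?_)
        rw [Real.norm_eq_abs, abs_of_nonneg (sq_nonneg _), ← mul_pow]
        exact pow_le_pow_left₀ (norm_nonneg _) (abs_real_inner_le_norm _ _) 2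
      have hAc : AEStronglyMeasurable (Av h fun y => ⟪u y, v⟫) volume := by
        have : (Av h fun y => ⟪u y, v⟫) = fun x => ⟪Av h u x, v⟫ := funext fun x => (h1 x).symm
        rw [this]
        exact ((hAuc h hh).inner continuous_const).aestronglyMeasurable
      have h2 := (Av_bound h (fun y => ⟪u y, v⟫) hc.stronglyMeasurable hi2 hAc).2
      simp only [Real.norm_eq_abs, sq_abs] at h2
      simp only [h1]
      exact h2.trans (hbes v)
  -- the limit
  set hk : ℕ → ℝ := fun k => 1 / ((k : ℝ) + 1) with hhk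
  have hk0 : ∀ k, hk k ≠ 0 := fun k => by simp only [hhk]; positivity
  have hlim : Tendsto hk atTop (𝓝 0) := tendsto_one_div_add_atTop_nhds_zero_nat
  have hpt : ∀ x, Tendsto (fun k => Av (hk k) u x) atTop (𝓝 (u x)) := by
    intro x
    have h1 := (hUd x).tendsto_slope_zero
    have h2 : Tendsto hk atTop (𝓝[≠] 0) :=
      tendsto_nhdsWithin_iff.2 ⟨hlim, Eventually.of_forall fun k => hk0 k⟩
    refine (h1.comp h2).congr fun k => ?_
    simp only [Function.comp]
    rw [hAu _ (hk0 k)]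
  have hbound : ∀ k, ∫⁻ x, ENNReal.ofReal ((‖Av (hk k) u x‖ ^ 2) ^ 3) ≤
      ENNReal.ofReal (4 / π ^ 2 * ∫ x, ‖G x‖ ^ 2) := by
    intro k
    have hs := hsys (hk k) (hk0 k)
    rw [← ofReal_integral_eq_lintegral_ofReal hs.rho3_int
      (Eventually.of_forall fun x => by positivity)]
    refine ENNReal.ofReal_le_ofReal ?_
    have h1 := hs.sharp
    have h2 := (Av_bound (hk k) G hGm hG2i (hAGc _ (hk0 k)).aestronglyMeasurable).2
    have h3 : π ^ 2 / 4 * ∫ x, (‖Av (hk k) u x‖ ^ 2) ^ 3 ≤ ∫ x, ‖G x‖ ^ 2 := h1.trans h2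
    have hπ : 0 < π ^ 2 := by positivity
    rw [div_mul_eq_mul_div, le_div_iff₀ hπ]
    linarith
  have hfatou : ∫⁻ x, ENNReal.ofReal ((‖u x‖ ^ 2) ^ 3) ≤
      ENNReal.ofReal (4 / π ^ 2 * ∫ x, ‖G x‖ ^ 2) := by
    have h1 : ∀ x, liminf (fun k => ENNReal.ofReal ((‖Av (hk k) u x‖ ^ 2) ^ 3)) atTop =
        ENNReal.ofReal ((‖u x‖ ^ 2) ^ 3) := by
      intro x
      refine Tendsto.liminf_eq ?_
      exact (ENNReal.continuous_ofReal.tendsto _).comp (((hpt x).norm.pow 2).pow 3)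
    have h2 : ∫⁻ x, liminf (fun k => ENNReal.ofReal ((‖Av (hk k) u x‖ ^ 2) ^ 3)) atTop ≤
        liminf (fun k => ∫⁻ x, ENNReal.ofReal ((‖Av (hk k) u x‖ ^ 2) ^ 3)) atTop := by
      refine lintegral_liminf_le fun k => ?_
      exact (((hAuc _ (hk0 k)).norm.pow 2).pow 3).measurable.ennreal_ofReal
    simp only [h1] at h2
    refine h2.trans ?_
    refine liminf_le_of_le (by isBoundedDefault) fun b hb => ?_
    obtain ⟨k, hk'⟩ := hb.exists
    exact hk'.trans (hbound k)
  have hI : Integrable (fun x => (‖u x‖ ^ 2) ^ 3) := by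
    refine ⟨((huc.norm.pow 2).pow 3).aestronglyMeasurable, ?_⟩
    rw [hasFiniteIntegral_iff_ofReal (Eventually.of_forall fun x => by positivity)]
    exact hfatou.trans_lt ENNReal.ofReal_lt_top
  refine ⟨hI, ?_⟩
  rw [← ofReal_integral_eq_lintegral_ofReal hI (Eventually.of_forall fun x => by positivity),
    ENNReal.ofReal_le_ofReal_iff (by
      have : 0 ≤ ∫ x, ‖G x‖ ^ 2 := integral_nonneg fun x => sq_nonneg _
      positivity)] at hfatou
  rw [hgval]
  have hπ : 0 < π ^ 2 := by positivity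
  rw [div_mul_eq_mul_div, le_div_iff₀ hπ] at hfatou
  linarith

end Pool.Helper490.Calib
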