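import Pool.Agent.Helper490.LTH1
import Pool.Agent.Helper490.LTSech

set_option autoImplicit false

open MeasureTheory Set Filter Topology Real
open scoped RealInnerProductSpace ENNReal

namespace Pool.Helper490.Calib

lemma realify_inner {N : ℕ} (u : Fin N → ℂ) (v : EuclideanSpace ℝ (Fin N ⊕ Fin N)) :
    ⟪realify u, v⟫ = (∑ n, star (⟨v (Sum.inl n), v (Sum.inr n)⟩ : ℂ) * u n).re := by
  rw [PiLp.inner_apply, Fintype.sum_sum_type]
  simp only [realify, Sum.elim_inl, Sum.elim_inr, Complex.re_sum]
  rw [← Finset.sum_add_distrib]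
  refine Finset.sum_congr rfl fun n _ => ?_
  simp

/-- Bessel's inequality for the real coordinates of an orthonormal family. -/
lemma bessel_of_orthonormal {N : ℕ} (u : Fin N → ℝ → ℂ)
    (hm : ∀ n, AEStronglyMeasurable (u n) volume) (h2 : ∀ n, Integrable (fun x => ‖u n x‖ ^ 2))
    (ho : ∀ n m, ∫ x, star (u n x) * u m x = if n = m then 1 else 0)
    (v : EuclideanSpace ℝ (Fin N ⊕ Fin N)) :
    ∫ x, ⟪realify (fun n => u n x), v⟫ ^ 2 ≤ ‖v‖ ^ 2 := by
  have hij : ∀ n m, Integrable (fun x => star (u n x) * u m x) := by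
    intro n m
    have hm : AEStronglyMeasurable (fun x => star (u n x) * u m x) volume :=
      ((hm n).star).mul (hm m)
    refine ((h2 n).add (h2 m)).mono' hm (Eventually.of_forall fun x => ?_)
    rw [norm_mul, norm_star]
    simp only [Pi.add_apply]
    nlinarith [sq_nonneg (‖u n x‖ - ‖u m x‖), norm_nonneg (u n x), norm_nonneg (u m x)]
  set z : Fin N → ℂ := fun n => ⟨v (Sum.inl n), v (Sum.inr n)⟩ with hz
  set g : ℝ → ℂ := fun x => ∑ n, star (z n) * u n x with hg
  have hinner : ∀ x, ⟪realify (fun n => u n x), v⟫ = (g x).re := fun x => realify_inner _ v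
  have hexp : ∀ x, star (g x) * g x =
      ∑ n, ∑ m, (z n * star (z m)) * (star (u n x) * u m x) := by
    intro x
    simp only [hg, star_sum, star_mul', star_star]
    rw [Finset.sum_mul_sum]
    refine Finset.sum_congr rfl fun n _ => Finset.sum_congr rfl fun m _ => ?_
    ring
  have hgi : Integrable (fun x => star (g x) * g x) := by
    simp only [hexp]
    exact integrable_finsetSum _ fun n _ => integrable_finsetSum _ fun m _ =>
      (hij n m).const_mul _
  have hgint : ∫ x, star (g x) * g x = ((∑ n, ‖z n‖ ^ 2 : ℝ) : ℂ) := by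
    simp only [hexp]
    rw [integral_finsetSum _ fun n _ => integrable_finsetSum _ fun m _ =>
      (hij n m).const_mul _]
    push_cast
    refine Finset.sum_congr rfl fun n _ => ?_
    rw [integral_finsetSum _ fun m _ => (hij n m).const_mul _]
    simp only [integral_const_mul, ho]
    simp only [mul_ite, mul_one, mul_zero, Finset.sum_ite_eq, Finset.mem_univ, if_true]
    rw [← Complex.ofReal_pow, ← Complex.normSq_eq_norm_sq]
    exact Complex.mul_conj _
  have hnorm : ∀ x, ((‖g x‖ ^ 2 : ℝ) : ℂ) = star (g x) * g x := by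
    intro x
    rw [mul_comm]
    rw [← Complex.normSq_eq_norm_sq]
    exact (Complex.mul_conj _).symm
  have hgi2 : Integrable (fun x => ‖g x‖ ^ 2) := by
    have := hgi.re
    refine this.congr (Eventually.of_forall fun x => ?_)
    simp only [← hnorm]
    exact Complex.ofReal_re _
  have hval : ∫ x, ‖g x‖ ^ 2 = ∑ n, ‖z n‖ ^ 2 := by
    have h1 : ((∫ x, ‖g x‖ ^ 2 : ℝ) : ℂ) = ((∑ n, ‖z n‖ ^ 2 : ℝ) : ℂ) := by
      rw [← hgint, ← integral_complex_ofReal]
      exact integral_congr_ae (Eventually.of_forall fun x => hnorm x)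
    exact_mod_cast h1
  have hv : ‖v‖ ^ 2 = ∑ n, ‖z n‖ ^ 2 := by
    rw [EuclideanSpace.norm_sq_eq, Fintype.sum_sum_type, ← Finset.sum_add_distrib]
    refine Finset.sum_congr rfl fun n _ => ?_
    rw [sqn]
    simp [hz]
  rw [hv, ← hval]
  refine integral_mono_of_nonneg (Eventually.of_forall fun x => sq_nonneg _) hgi2
    (Eventually.of_forall fun x => ?_)
  simp only [hinner]
  rw [sqn]
  nlinarith [sq_nonneg (g x).im]

/-- The real coordinates as a continuous linear map. -/
noncomputable def realifyL (N : ℕ) : (Fin N → ℂ) →L[ℝ] EuclideanSpace ℝ (Fin N ⊕ Fin N) :=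
  LinearMap.toContinuousLinearMap
    { toFun := fun u => realify u
      map_add' := fun a b => by
        ext i
        rcases i with i | i <;> simp [realify]
      map_smul' := fun r a => by
        ext i
        rcases i with i | i <;> simp [realify] }

lemma realifyL_apply {N : ℕ} (u : Fin N → ℂ) : realifyL N u = realify u := rfl

/-- The sharp inequality for orthonormal families in the Sobolev space. -/
theorem sharp_H1_complex {N : ℕ} (u g : Fin N → ℝ → ℂ) (hu2 : ∀ n, MemLp (u n) 2)
    (hg2 : ∀ n, MemLp (g n) 2) (hug : ∀ n a b, u n b - u n a = ∫ x in a..b, g n x)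
    (ho : ∀ n m, ∫ x, star (u n x) * u m x = if n = m then 1 else 0) :
    Integrable (fun x => (∑ n, ‖u n x‖ ^ 2) ^ 3) ∧
    π ^ 2 / 4 * ∫ x, (∑ n, ‖u n x‖ ^ 2) ^ 3 ≤ ∑ n, ∫ x, ‖g n x‖ ^ 2 := by
  have hui : ∀ n, Integrable (fun x => ‖u n x‖ ^ 2) := fun n =>
    (hu2 n).integrable_norm_pow (by norm_num)
  have hgi : ∀ n, Integrable (fun x => ‖g n x‖ ^ 2) := fun n =>
    (hg2 n).integrable_norm_pow (by norm_num)
  have hmem : ∀ f : Fin N → ℝ → ℂ, (∀ n, MemLp (f n) 2) →
      MemLp (fun x => realify fun n => f n x) 2 := by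
    intro f hf
    have hfm : AEStronglyMeasurable (fun x => fun n => f n x) volume :=
      (aemeasurable_pi_lambda _ fun n => (hf n).1.aemeasurable).aestronglyMeasurable
    have hm : AEStronglyMeasurable (fun x => realify fun n => f n x) volume :=
      (realifyL N).continuous.comp_aestronglyMeasurable hfm
    rw [memLp_two_iff_integrable_sq_norm hm]
    simp only [realify_norm]
    exact integrable_finsetSum _ fun n _ => (hf n).integrable_norm_pow (by norm_num)
  have hII : ∀ n a b, IntervalIntegrable (g n) volume a b := by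
    intro n a b
    have h1 : LocallyIntegrable (g n) volume := (hg2 n).locallyIntegrable (by norm_num)
    exact intervalIntegrable_iff.2 ((h1.integrableOn_isCompact isCompact_uIcc).mono_set
      uIoc_subset_uIcc)
  have hftc : ∀ a b, realify (fun n => u n b) - realify (fun n => u n a) =
      ∫ x in a..b, realify fun n => g n x := by
    intro a b
    have hpi : IntervalIntegrable (fun x => fun n => g n x) volume a b := by
      rw [intervalIntegrable_iff]
      exact Integrable.of_eval fun n => intervalIntegrable_iff.1 (hII n a b)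
    have h1 := (realifyL N).intervalIntegral_comp_comm hpi
    simp only [realifyL_apply] at h1
    rw [h1, ← realifyL_apply, ← realifyL_apply, ← realifyL_apply, ← map_sub]
    congr 1
    funext n
    rw [Pi.sub_apply, hug n a b]
    have h2 := (ContinuousLinearMap.proj (R := ℝ) (φ := fun _ : Fin N => ℂ) n).intervalIntegral_comp_comm hpi
    simpa using h2
  have h := sharp_H1 (fun x => realify fun n => u n x) (fun x => realify fun n => g n x)
    (hmem u hu2) (hmem g hg2) hftc
    (fun v => bessel_of_orthonormal u (fun n => (hu2 n).1) hui ho v)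
  simp only [realify_norm] at h
  rwa [integral_finsetSum _ fun n _ => hgi n] at h

end Pool.Helper490.Calib
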