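import Pool.Agent.Helper490.LTAvg

set_option autoImplicit false

open MeasureTheory Set Filter Topology Real
open scoped RealInnerProductSpace

namespace Pool.Helper490.LT

/-- The inequality for the real and imaginary parts. -/
theorem four_real (a b c d : ℝ → ℝ) (ha : ContDiff ℝ 1 a) (hb : ContDiff ℝ 1 b)
    (hc : ContDiff ℝ 1 c) (hd : ContDiff ℝ 1 d)
    (h1 : Integrable (fun x => a x ^ 2 + b x ^ 2)) (h2 : Integrable (fun x => c x ^ 2 + d x ^ 2))
    (h1' : Integrable (fun x => deriv a x ^ 2 + deriv b x ^ 2))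
    (h2' : Integrable (fun x => deriv c x ^ 2 + deriv d x ^ 2))
    (n1 : ∫ x, (a x ^ 2 + b x ^ 2) = 1) (n2 : ∫ x, (c x ^ 2 + d x ^ 2) = 1)
    (o1 : ∫ x, (a x * c x + b x * d x) = 0) (o2 : ∫ x, (a x * d x - b x * c x) = 0) :
    81 * π ^ 2 / 343 * ∫ x, ((a x ^ 2 + b x ^ 2) + (c x ^ 2 + d x ^ 2)) ^ 3 ≤
      ∫ x, ((deriv a x ^ 2 + deriv b x ^ 2) + (deriv c x ^ 2 + deriv d x ^ 2)) := by
  have da : ∀ x, HasDerivAt a (deriv a x) x := fun x =>
    (ha.differentiable (by norm_num) x).hasDerivAt
  have db : ∀ x, HasDerivAt b (deriv b x) x := fun x =>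
    (hb.differentiable (by norm_num) x).hasDerivAt
  have dc : ∀ x, HasDerivAt c (deriv c x) x := fun x =>
    (hc.differentiable (by norm_num) x).hasDerivAt
  have dd : ∀ x, HasDerivAt d (deriv d x) x := fun x =>
    (hd.differentiable (by norm_num) x).hasDerivAt
  have ca := ha.continuous
  have cb := hb.continuous
  have cc := hc.continuous
  have cd := hd.continuous
  have ca' : Continuous (deriv a) := ha.continuous_deriv (by norm_num)
  have cb' : Continuous (deriv b) := hb.continuous_deriv (by norm_num)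
  have cc' : Continuous (deriv c) := hc.continuous_deriv (by norm_num)
  have cd' : Continuous (deriv d) := hd.continuous_deriv (by norm_num)
  set ρ : ℝ → ℝ := fun x => (a x ^ 2 + b x ^ 2) + (c x ^ 2 + d x ^ 2) with hρ
  set K : ℝ → ℝ := fun x =>
    (deriv a x ^ 2 + deriv b x ^ 2) + (deriv c x ^ 2 + deriv d x ^ 2) with hK
  have hρi : Integrable ρ := h1.add h2
  have hKi : Integrable K := h1'.add h2'
  have hρ0 : ∀ x, 0 ≤ ρ x := fun x => by simp only [hρ]; positivity
  have hK0 : ∀ x, 0 ≤ K x := fun x => by simp only [hK]; positivity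
  set ψ : ℝ → EuclideanSpace ℝ (Fin 3) := fun x =>
    !₂[2 * (a x * c x + b x * d x), 2 * (a x * d x - b x * c x),
      (a x ^ 2 + b x ^ 2) - (c x ^ 2 + d x ^ 2)] with hψdef
  set ψ' : ℝ → EuclideanSpace ℝ (Fin 3) := fun x =>
    !₂[2 * (deriv a x * c x + a x * deriv c x + (deriv b x * d x + b x * deriv d x)),
      2 * (deriv a x * d x + a x * deriv d x - (deriv b x * c x + b x * deriv c x)),
      (2 * a x * deriv a x + 2 * b x * deriv b x) -
        (2 * c x * deriv c x + 2 * d x * deriv d x)] with hψ'def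
  have e0 : ∀ x, HasDerivAt (fun x => 2 * (a x * c x + b x * d x))
      (2 * (deriv a x * c x + a x * deriv c x + (deriv b x * d x + b x * deriv d x))) x :=
    fun x => (((da x).mul (dc x)).add ((db x).mul (dd x))).const_mul 2
  have e1 : ∀ x, HasDerivAt (fun x => 2 * (a x * d x - b x * c x))
      (2 * (deriv a x * d x + a x * deriv d x - (deriv b x * c x + b x * deriv c x))) x :=
    fun x => (((da x).mul (dd x)).sub ((db x).mul (dc x))).const_mul 2
  have esq : ∀ (f : ℝ → ℝ) (x : ℝ), HasDerivAt f (deriv f x) x →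
      HasDerivAt (fun x => f x ^ 2) (2 * f x * deriv f x) x := by
    intro f x hf
    have := hf.pow 2
    refine this.congr_deriv ?_
    simp
  have e2 : ∀ x, HasDerivAt (fun x => (a x ^ 2 + b x ^ 2) - (c x ^ 2 + d x ^ 2))
      ((2 * a x * deriv a x + 2 * b x * deriv b x) -
        (2 * c x * deriv c x + 2 * d x * deriv d x)) x :=
    fun x => ((esq a x (da x)).add (esq b x (db x))).sub ((esq c x (dc x)).add (esq d x (dd x)))
  have eρ : ∀ x, HasDerivAt ρ ((2 * a x * deriv a x + 2 * b x * deriv b x) +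
        (2 * c x * deriv c x + 2 * d x * deriv d x)) x :=
    fun x => ((esq a x (da x)).add (esq b x (db x))).add ((esq c x (dc x)).add (esq d x (dd x)))
  have hψ : ∀ x, HasDerivAt ψ (ψ' x) x := by
    intro x
    have hpi : HasDerivAt (fun x => (![2 * (a x * c x + b x * d x),
        2 * (a x * d x - b x * c x), (a x ^ 2 + b x ^ 2) - (c x ^ 2 + d x ^ 2)] : Fin 3 → ℝ))
        ![2 * (deriv a x * c x + a x * deriv c x + (deriv b x * d x + b x * deriv d x)),
      2 * (deriv a x * d x + a x * deriv d x - (deriv b x * c x + b x * deriv c x)),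
      (2 * a x * deriv a x + 2 * b x * deriv b x) -
        (2 * c x * deriv c x + 2 * d x * deriv d x)] x := by
      rw [hasDerivAt_pi]
      intro i
      fin_cases i
      · exact e0 x
      · exact e1 x
      · exact e2 x
    exact (PiLp.hasFDerivAt_toLp (𝕜 := ℝ) 2 _).comp_hasDerivAt x hpi
  have hψc : Continuous ψ := continuous_iff_continuousAt.2 fun x => (hψ x).continuousAt
  have hψ'c : Continuous ψ' := by
    have : Continuous (fun x => (![2 * (deriv a x * c x + a x * deriv c x +
          (deriv b x * d x + b x * deriv d x)),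
        2 * (deriv a x * d x + a x * deriv d x - (deriv b x * c x + b x * deriv c x)),
        (2 * a x * deriv a x + 2 * b x * deriv b x) -
        (2 * c x * deriv c x + 2 * d x * deriv d x)] : Fin 3 → ℝ)) := by
      refine continuous_pi fun i => ?_
      fin_cases i
      · simp only [Fin.zero_eta, Matrix.cons_val_zero]; fun_prop
      · simp only [Fin.mk_one, Matrix.cons_val_one]; fun_prop
      · simp only [Fin.reduceFinMk, Matrix.cons_val]; fun_prop
    exact (PiLp.continuous_toLp 2 _).comp this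
  have hnorm : ∀ x, ‖ψ x‖ = ρ x := by
    intro x
    rw [EuclideanSpace.norm_eq, Fin.sum_univ_three]
    simp only [hψdef, hρ, Real.norm_eq_abs, sq_abs, Matrix.cons_val_zero, Matrix.cons_val_one,
      Matrix.cons_val]
    rw [Real.sqrt_eq_iff_mul_self_eq (by positivity) (by positivity)]
    ring
  have hnorm' : ∀ x, ‖ψ' x‖ ^ 2 ≤ 4 * ρ x * K x := by
    intro x
    rw [EuclideanSpace.norm_sq_eq, Fin.sum_univ_three]
    simp only [hψ'def, hρ, hK, Real.norm_eq_abs, sq_abs, Matrix.cons_val_zero,
      Matrix.cons_val_one, Matrix.cons_val]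
    nlinarith [sq_nonneg (a x * deriv b x - b x * deriv a x + c x * deriv d x - d x * deriv c x)]
  have hρ' : Continuous (fun x => (2 * a x * deriv a x + 2 * b x * deriv b x) +
        (2 * c x * deriv c x + 2 * d x * deriv d x)) := by fun_prop
  have hρ'i : Integrable (fun x => (2 * a x * deriv a x + 2 * b x * deriv b x) +
        (2 * c x * deriv c x + 2 * d x * deriv d x)) := by
    refine (hρi.add hKi).mono' hρ'.aestronglyMeasurable (Eventually.of_forall fun x => ?_)
    rw [Real.norm_eq_abs, abs_le]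
    simp only [hρ, hK, Pi.add_apply]
    constructor
    · nlinarith [sq_nonneg (a x + deriv a x), sq_nonneg (b x + deriv b x),
        sq_nonneg (c x + deriv c x), sq_nonneg (d x + deriv d x)]
    · nlinarith [sq_nonneg (a x - deriv a x), sq_nonneg (b x - deriv b x),
        sq_nonneg (c x - deriv c x), sq_nonneg (d x - deriv d x)]
  have hT : Tendsto ρ atTop (𝓝 0) :=
    tendsto_zero_of_hasDerivAt_of_integrableOn_Ioi (a := 0) (fun x _ => eρ x)
      hρ'i.integrableOn hρi.integrableOn
  have hB : Tendsto ρ atBot (𝓝 0) :=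
    tendsto_zero_of_hasDerivAt_of_integrableOn_Iic (a := 0) (fun x _ => eρ x)
      hρ'i.integrableOn hρi.integrableOn
  have hM : ∃ M, ∀ x, ρ x ≤ M := by
    refine ⟨∫ x, |(2 * a x * deriv a x + 2 * b x * deriv b x) +
        (2 * c x * deriv c x + 2 * d x * deriv d x)|, fun x => ?_⟩
    have h3 := integral_Iic_of_hasDerivAt_of_tendsto' (a := x) (fun y _ => eρ y)
      hρ'i.integrableOn hB
    rw [sub_zero] at h3
    rw [← h3]
    refine le_trans (integral_mono hρ'i.integrableOn hρ'i.abs.integrableOn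
      fun y => le_abs_self _) ?_
    exact setIntegral_le_integral hρ'i.abs (Eventually.of_forall fun y => abs_nonneg _)
  have hV : Vec ψ ψ' ρ K :=
    { hψ := hψ, hψ'c := hψ'c, hρ := hnorm, hρi := hρi,
      hKc := by
        have : Continuous K := by simp only [hK]; fun_prop
        exact this.measurable
      hKi := hKi, hK0 := hK0, hK := hnorm', hρM := hM, hT := hT, hB := hB }
  have hmass : ∫ x, ρ x = 2 := by
    simp only [hρ]
    rw [integral_add h1 h2, n1, n2]; norm_num
  have hψi : Integrable ψ := by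
    refine hρi.mono hψc.aestronglyMeasurable (Eventually.of_forall fun x => ?_)
    rw [hnorm x, Real.norm_eq_abs, abs_of_nonneg (hρ0 x)]
  have h0 : ∫ x, ψ x = 0 := by
    ext i
    have h5 : ∫ x, ψ x i = (∫ x, ψ x) i :=
      (EuclideanSpace.proj (𝕜 := ℝ) i).integral_comp_comm hψi
    rw [← h5]
    fin_cases i
    · change ∫ x, 2 * (a x * c x + b x * d x) = 0
      rw [integral_const_mul, o1, mul_zero]
    · change ∫ x, 2 * (a x * d x - b x * c x) = 0
      rw [integral_const_mul, o2, mul_zero]
    · change ∫ x, ((a x ^ 2 + b x ^ 2) - (c x ^ 2 + d x ^ 2)) = 0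
      rw [integral_sub h1 h2, n1, n2, sub_self]
  exact vec_three hV hmass h0

/-- The inequality for two orthonormal complex functions. -/
theorem two_complex (u v : ℝ → ℂ) (hu : ContDiff ℝ 1 u) (hv : ContDiff ℝ 1 v)
    (hu2 : Integrable (fun x => ‖u x‖ ^ 2)) (hv2 : Integrable (fun x => ‖v x‖ ^ 2))
    (hu' : Integrable (fun x => ‖deriv u x‖ ^ 2)) (hv' : Integrable (fun x => ‖deriv v x‖ ^ 2))
    (nu : ∫ x, ‖u x‖ ^ 2 = 1) (nv : ∫ x, ‖v x‖ ^ 2 = 1)
    (ouv : ∫ x, star (u x) * v x = 0) :
    81 * π ^ 2 / 343 * ∫ x, (‖u x‖ ^ 2 + ‖v x‖ ^ 2) ^ 3 ≤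
      ∫ x, (‖deriv u x‖ ^ 2 + ‖deriv v x‖ ^ 2) := by
  have du : ∀ x, HasDerivAt u (deriv u x) x := fun x =>
    (hu.differentiable (by norm_num) x).hasDerivAt
  have dv : ∀ x, HasDerivAt v (deriv v x) x := fun x =>
    (hv.differentiable (by norm_num) x).hasDerivAt
  have sqn : ∀ z : ℂ, ‖z‖ ^ 2 = z.re ^ 2 + z.im ^ 2 := by
    intro z
    rw [Complex.sq_norm, Complex.normSq_apply]; ring
  have cre : ∀ w : ℝ → ℂ, ContDiff ℝ 1 w → ContDiff ℝ 1 (fun x => (w x).re) := fun w hw =>
    Complex.reCLM.contDiff.comp hw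
  have cim : ∀ w : ℝ → ℂ, ContDiff ℝ 1 w → ContDiff ℝ 1 (fun x => (w x).im) := fun w hw =>
    Complex.imCLM.contDiff.comp hw
  have dre : ∀ w : ℝ → ℂ, (∀ x, HasDerivAt w (deriv w x) x) →
      deriv (fun x => (w x).re) = fun x => (deriv w x).re := fun w hw => by
    funext x
    exact (Complex.reCLM.hasFDerivAt.comp_hasDerivAt x (hw x)).deriv
  have dim : ∀ w : ℝ → ℂ, (∀ x, HasDerivAt w (deriv w x) x) →
      deriv (fun x => (w x).im) = fun x => (deriv w x).im := fun w hw => by
    funext x
    exact (Complex.imCLM.hasFDerivAt.comp_hasDerivAt x (hw x)).deriv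
  have huv : Integrable (fun x => star (u x) * v x) := by
    have hm : AEStronglyMeasurable (fun x => star (u x) * v x) volume :=
      ((continuous_star.comp hu.continuous).mul hv.continuous).aestronglyMeasurable
    refine (hu2.add hv2).mono' hm (Eventually.of_forall fun x => ?_)
    rw [norm_mul, norm_star]
    simp only [Pi.add_apply]
    nlinarith [sq_nonneg (‖u x‖ - ‖v x‖), norm_nonneg (u x), norm_nonneg (v x)]
  have ore : ∫ x, (star (u x) * v x).re = 0 := by
    have := Complex.reCLM.integral_comp_comm huv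
    simp only [Complex.reCLM_apply] at this
    rw [this, ouv, Complex.zero_re]
  have oim : ∫ x, (star (u x) * v x).im = 0 := by
    have := Complex.imCLM.integral_comp_comm huv
    simp only [Complex.imCLM_apply] at this
    rw [this, ouv, Complex.zero_im]
  simp only [sqn] at hu2 hv2 hu' hv' nu nv ⊢
  have := four_real (fun x => (u x).re) (fun x => (u x).im) (fun x => (v x).re)
    (fun x => (v x).im) (cre u hu) (cim u hu) (cre v hv) (cim v hv) hu2 hv2
    (by rw [dre u du, dim u du]; exact hu') (by rw [dre v dv, dim v dv]; exact hv') nu nv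
    (by
      rw [← ore]
      congr 1
      funext x
      simp)
    (by
      rw [← oim]
      congr 1
      funext x
      simp
      ring)
  rw [dre u du, dim u du, dre v dv, dim v dv] at this
  exact this

end Pool.Helper490.LT
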