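import Mathlib

set_option autoImplicit false

open MeasureTheory Set Filter Topology Real

namespace Pool.Helper490.LT

/-- The hypotheses on a scalar function `f` dominated by the density `ρ`. -/
structure Dom (ρ f g K : ℝ → ℝ) : Prop where
  hρc : Continuous ρ
  hρi : Integrable ρ
  hf : ∀ x, HasDerivAt f (g x) x
  hgc : Continuous g
  hfρ : ∀ x, |f x| ≤ ρ x
  hKi : Integrable K
  hg : ∀ x, g x ^ 2 ≤ 4 * ρ x * K x
  hK0 : ∀ x, 0 ≤ K x
  hρM : ∃ M, ∀ x, ρ x ≤ M
  hT : Tendsto ρ atTop (𝓝 0)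
  hB : Tendsto ρ atBot (𝓝 0)

namespace Dom

variable {ρ f g K : ℝ → ℝ} (h : Dom ρ f g K)
include h

lemma ρ0 (x : ℝ) : 0 ≤ ρ x := le_trans (abs_nonneg _) (h.hfρ x)

lemma fc : Continuous f := continuous_iff_continuousAt.2 fun x => (h.hf x).continuousAt

lemma openP : IsOpen {x | 0 < f x} := isOpen_lt continuous_const h.fc

lemma measP : MeasurableSet {x | 0 < f x} := h.openP.measurableSet

lemma f_sq_le (x : ℝ) : f x ^ 2 ≤ ρ x ^ 2 := by
  have := h.hfρ x
  rw [← sq_abs]
  exact pow_le_pow_left₀ (abs_nonneg _) this 2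

lemma g_le (x : ℝ) : |g x| ≤ ρ x + K x := by
  have h1 := h.hg x
  have h2 := h.ρ0 x
  have h3 := h.hK0 x
  apply abs_le_of_sq_le_sq' _ (by linarith) |> fun h => abs_le.2 h
  nlinarith [sq_nonneg (ρ x - K x)]

lemma neg : Dom ρ (fun x => - f x) (fun x => - g x) K where
  hρc := h.hρc
  hρi := h.hρi
  hf := fun x => (h.hf x).neg
  hgc := h.hgc.neg
  hfρ := fun x => by rw [abs_neg]; exact h.hfρ x
  hKi := h.hKi
  hg := fun x => by rw [neg_sq]; exact h.hg x
  hK0 := h.hK0
  hρM := h.hρM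
  hT := h.hT
  hB := h.hB

lemma int_gg : Integrable (fun x => g x ^ 2 / ρ x) := by
  refine Integrable.mono' (h.hKi.const_mul 4) ?_ ?_
  · exact ((h.hgc.measurable.pow_const 2).div h.hρc.measurable).aestronglyMeasurable
  · refine Eventually.of_forall fun x => ?_
    rw [Real.norm_eq_abs, abs_of_nonneg (div_nonneg (sq_nonneg _) (h.ρ0 x))]
    rcases (h.ρ0 x).eq_or_lt with h0 | h0
    · rw [← h0, div_zero]; exact mul_nonneg (by norm_num) (h.hK0 x)
    · rw [div_le_iff₀ h0]
      have := h.hg x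
      linarith

lemma int_cube : Integrable (fun x => ρ x ^ 3) := by
  obtain ⟨M, hM⟩ := h.hρM
  refine Integrable.mono' (h.hρi.const_mul (M ^ 2)) (h.hρc.pow 3).aestronglyMeasurable ?_
  refine Eventually.of_forall fun x => ?_
  have h0 := h.ρ0 x
  rw [Real.norm_eq_abs, abs_of_nonneg (by positivity)]
  calc ρ x ^ 3 = ρ x ^ 2 * ρ x := by ring
    _ ≤ M ^ 2 * ρ x := by
      refine mul_le_mul_of_nonneg_right ?_ h0
      exact pow_le_pow_left₀ h0 (hM x) 2

lemma int_ffρ : Integrable (fun x => f x ^ 2 * ρ x) := by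
  refine Integrable.mono' h.int_cube ((h.fc.pow 2).mul h.hρc).aestronglyMeasurable ?_
  refine Eventually.of_forall fun x => ?_
  have h0 := h.ρ0 x
  rw [Real.norm_eq_abs, abs_of_nonneg (by positivity)]
  calc f x ^ 2 * ρ x ≤ ρ x ^ 2 * ρ x := mul_le_mul_of_nonneg_right (h.f_sq_le x) h0
    _ = ρ x ^ 3 := by ring

/-- Faber–Krahn inequality for the part where `f` is positive, with respect to the weight `ρ`. -/
theorem faber_krahn (ε : ℝ) (hε : 0 < ε) :
    (π / ((∫ x in {x | 0 < f x}, ρ x) + 2 * ε)) ^ 2 * ∫ x in {x | 0 < f x}, f x ^ 2 * ρ x ≤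
      ∫ x in {x | 0 < f x}, g x ^ 2 / ρ x := by
  obtain ⟨M, hM⟩ := h.hρM
  set P : Set ℝ := {x | 0 < f x} with hPdef
  have hPo : IsOpen P := h.openP
  have hPm : MeasurableSet P := h.measP
  set p : ℝ := ∫ x in P, ρ x with hp
  have hp0 : 0 ≤ p := setIntegral_nonneg hPm fun x _ => h.ρ0 x
  set k : ℝ := π / (p + 2 * ε) with hk
  have hden : 0 < p + 2 * ε := by linarith
  have hk0 : 0 < k := div_pos pi_pos hden
  set w : ℝ → ℝ := P.indicator ρ with hw
  have hwi : Integrable w := h.hρi.indicator hPm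
  have hw0 : ∀ x, 0 ≤ w x := fun x => indicator_nonneg (fun y _ => h.ρ0 y) x
  set m : ℝ → ℝ := fun x => ∫ t in Iic x, w t with hm
  have hm0 : ∀ x, 0 ≤ m x := fun x => setIntegral_nonneg measurableSet_Iic fun y _ => hw0 y
  have hmp : ∀ x, m x ≤ p := by
    intro x
    have h1 : m x ≤ ∫ t, w t := setIntegral_le_integral hwi (Eventually.of_forall hw0)
    rwa [hw, integral_indicator hPm] at h1
  have hmform : m = fun x => m 0 + ∫ t in (0:ℝ)..x, w t := by
    funext x
    have := intervalIntegral.integral_Iic_sub_Iic (f := w) (a := 0) (b := x) (μ := volume)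
      hwi.integrableOn hwi.integrableOn
    simp only [hm]
    linarith
  have hmc : Continuous m := by
    rw [hmform]
    exact continuous_const.add (intervalIntegral.continuous_primitive
      (fun a b => hwi.intervalIntegrable) 0)
  have hmd : ∀ x ∈ P, HasDerivAt m (ρ x) x := by
    intro x hx
    have hev : w =ᶠ[𝓝 x] ρ := by
      filter_upwards [hPo.mem_nhds hx] with y hy
      exact indicator_of_mem hy _
    have hwc : ContinuousAt w x := (h.hρc.continuousAt).congr hev.symm
    have h1 := intervalIntegral.integral_hasDerivAt_right (a := 0) (b := x) (f := w)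
      hwi.intervalIntegrable (hwi.aestronglyMeasurable.stronglyMeasurableAtFilter) hwc
    have h2 : w x = ρ x := indicator_of_mem hx _
    rw [h2] at h1
    rw [hmform]
    exact h1.const_add (m 0)
  -- the angle
  set θ : ℝ → ℝ := fun x => k * (m x + ε) with hθ
  have hkε : k * (p + 2 * ε) = π := by rw [hk]; field_simp
  have hθ1 : ∀ x, k * ε ≤ θ x := by
    intro x
    exact mul_le_mul_of_nonneg_left (by linarith [hm0 x]) hk0.le
  have hθ2 : ∀ x, θ x ≤ π - k * ε := by
    intro x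
    have h1 : θ x ≤ k * (p + ε) := mul_le_mul_of_nonneg_left (by linarith [hmp x]) hk0.le
    have h2 : k * (p + ε) = π - k * ε := by linarith [hkε]
    linarith
  have hkε0 : 0 < k * ε := mul_pos hk0 hε
  have hkε1 : k * ε ≤ π / 2 := by nlinarith [mul_nonneg hk0.le hp0]
  have hs0 : 0 < sin (k * ε) := sin_pos_of_pos_of_lt_pi hkε0 (by linarith [pi_pos])
  have hsin : ∀ x, sin (k * ε) ≤ sin (θ x) := by
    intro x
    rcases le_total (θ x) (π / 2) with h1 | h1
    · exact sin_le_sin_of_le_of_le_pi_div_two (by linarith [pi_pos]) h1 (hθ1 x)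
    · rw [← sin_pi_sub (θ x)]
      exact sin_le_sin_of_le_of_le_pi_div_two (by linarith [pi_pos]) (by linarith)
        (by linarith [hθ2 x])
  have hsp : ∀ x, 0 < sin (θ x) := fun x => lt_of_lt_of_le hs0 (hsin x)
  set U : ℝ → ℝ := fun x => k * (cos (θ x) / sin (θ x)) with hU
  have hθc : Continuous θ := continuous_const.mul (hmc.add continuous_const)
  have hUc : Continuous U :=
    continuous_const.mul ((continuous_cos.comp hθc).div (continuous_sin.comp hθc)
      fun x => (hsp x).ne')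
  set C : ℝ := k / sin (k * ε) with hC
  have hUb : ∀ x, |U x| ≤ C := by
    intro x
    simp only [hU, hC]
    rw [abs_mul, abs_of_pos hk0, abs_div, abs_of_pos (hsp x), div_eq_mul_one_div k]
    refine mul_le_mul_of_nonneg_left ?_ hk0.le
    exact div_le_div₀ zero_le_one (abs_cos_le_one _) hs0 (hsin x)
  have hC0 : 0 ≤ C := le_trans (abs_nonneg _) (hUb 0)
  set Φ : ℝ → ℝ := P.indicator (fun x => U x * f x ^ 2) with hΦ
  set D : ℝ → ℝ := P.indicator
    (fun x => -(k ^ 2 + U x ^ 2) * ρ x * f x ^ 2 + 2 * U x * f x * g x) with hD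
  have hder : ∀ x, HasDerivAt Φ (D x) x := by
    intro x
    by_cases hx : x ∈ P
    · have hev : Φ =ᶠ[𝓝 x] fun y => U y * f y ^ 2 := by
        filter_upwards [hPo.mem_nhds hx] with y hy
        exact indicator_of_mem hy _
      refine HasDerivAt.congr_of_eventuallyEq ?_ hev
      have hθd : HasDerivAt θ (k * ρ x) x := ((hmd x hx).add_const ε).const_mul k
      have hcos := (hasDerivAt_cos (θ x)).comp x hθd
      have hsin' := (hasDerivAt_sin (θ x)).comp x hθd
      have hq := (hcos.div hsin' (hsp x).ne').const_mul k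
      have hprod := hq.mul ((h.hf x).pow 2)
      have hDx : D x = -(k ^ 2 + U x ^ 2) * ρ x * f x ^ 2 + 2 * U x * f x * g x :=
        indicator_of_mem hx _
      rw [hDx]
      refine hprod.congr_deriv ?_
      have hsx := (hsp x).ne'
      have hsc : cos (θ x) ^ 2 = 1 - sin (θ x) ^ 2 := by
        have := sin_sq_add_cos_sq (θ x); linarith
      simp only [hU, Function.comp, Pi.pow_apply, Pi.div_apply]
      field_simp
      ring_nf
    · have hDx : D x = 0 := indicator_of_notMem hx _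
      have hΦx : Φ x = 0 := indicator_of_notMem hx _
      rw [hDx]
      have hfx : f x ≤ 0 := not_lt.1 hx
      rcases hfx.lt_or_eq with hlt | heq
      · have hev : Φ =ᶠ[𝓝 x] fun _ => 0 := by
          filter_upwards [(isOpen_lt h.fc continuous_const).mem_nhds hlt] with y hy
          have hyP : y ∉ P := fun hy' => absurd hy' (not_lt.2 (le_of_lt hy))
          exact indicator_of_notMem hyP _
        exact (hasDerivAt_const x 0).congr_of_eventuallyEq hev
      · rw [hasDerivAt_iff_isLittleO]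
        have h1 : (fun y => f y - f x - (y - x) • g x) =o[𝓝 x] fun y => y - x :=
          hasDerivAt_iff_isLittleO.1 (h.hf x)
        have h2 : f =O[𝓝 x] fun y => y - x := by
          have := (h.hf x).differentiableAt.isBigO_sub
          simpa [heq] using this
        have h3 : (fun y => f y * f y) =o[𝓝 x] fun y => y - x := by
          have h4 : f =o[𝓝 x] (fun _ => (1:ℝ)) := by
            rw [Asymptotics.isLittleO_one_iff]
            have := (h.hf x).continuousAt
            rw [ContinuousAt, heq] at this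
            exact this
          simpa using h2.mul_isLittleO h4
        have h5 : Φ =O[𝓝 x] fun y => f y * f y := by
          refine Asymptotics.IsBigO.of_bound C (Eventually.of_forall fun y => ?_)
          by_cases hy : y ∈ P
          · have : Φ y = U y * f y ^ 2 := indicator_of_mem hy _
            rw [this, norm_mul, pow_two]
            exact mul_le_mul_of_nonneg_right (hUb y) (norm_nonneg _)
          · have : Φ y = 0 := indicator_of_notMem hy _
            rw [this, norm_zero]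
            exact mul_nonneg hC0 (norm_nonneg _)
        have h6 := h5.trans_isLittleO h3
        simpa [hΦx] using h6
  have hDi : Integrable D := by
    have hdom : Integrable (fun x => (k ^ 2 + C ^ 2) * ρ x ^ 3 + 2 * C * (M * (ρ x + K x))) :=
      (h.int_cube.const_mul _).add (((h.hρi.add h.hKi).const_mul M).const_mul _)
    refine Integrable.mono' hdom ?_ ?_
    · refine AEStronglyMeasurable.indicator ?_ hPm
      refine Continuous.aestronglyMeasurable ?_
      have := h.hρc; have := h.fc; have := h.hgc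
      fun_prop
    · refine Eventually.of_forall fun x => ?_
      have hρx := h.ρ0 x
      have hMx := hM x
      have hM0 : 0 ≤ M := le_trans hρx hMx
      have hKx := h.hK0 x
      have hdom0 : 0 ≤ (k ^ 2 + C ^ 2) * ρ x ^ 3 + 2 * C * (M * (ρ x + K x)) := by positivity
      by_cases hx : x ∈ P
      · have hDx : D x = -(k ^ 2 + U x ^ 2) * ρ x * f x ^ 2 + 2 * U x * f x * g x :=
          indicator_of_mem hx _
        rw [hDx, Real.norm_eq_abs]
        have hU2 : U x ^ 2 ≤ C ^ 2 := by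
          rw [← sq_abs]; exact pow_le_pow_left₀ (abs_nonneg _) (hUb x) 2
        have e1 : |-(k ^ 2 + U x ^ 2) * ρ x * f x ^ 2| ≤ (k ^ 2 + C ^ 2) * ρ x ^ 3 := by
          rw [abs_mul, abs_mul, abs_neg, abs_of_nonneg (by positivity : 0 ≤ k ^ 2 + U x ^ 2),
            abs_of_nonneg hρx, abs_of_nonneg (sq_nonneg (f x))]
          calc (k ^ 2 + U x ^ 2) * ρ x * f x ^ 2 ≤ (k ^ 2 + C ^ 2) * ρ x * ρ x ^ 2 := by
                refine mul_le_mul ?_ (h.f_sq_le x) (sq_nonneg _) (by positivity)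
                exact mul_le_mul_of_nonneg_right (by linarith) hρx
            _ = (k ^ 2 + C ^ 2) * ρ x ^ 3 := by ring
        have e2 : |2 * U x * f x * g x| ≤ 2 * C * (M * (ρ x + K x)) := by
          rw [abs_mul, abs_mul, abs_mul, abs_two]
          calc 2 * |U x| * |f x| * |g x| = 2 * |U x| * (|f x| * |g x|) := by ring
            _ ≤ 2 * C * (M * (ρ x + K x)) := by
              refine mul_le_mul (by linarith [hUb x]) ?_ (by positivity) (by positivity)
              exact mul_le_mul ((h.hfρ x).trans hMx) (h.g_le x) (abs_nonneg _) hM0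
        calc |-(k ^ 2 + U x ^ 2) * ρ x * f x ^ 2 + 2 * U x * f x * g x|
            ≤ |-(k ^ 2 + U x ^ 2) * ρ x * f x ^ 2| + |2 * U x * f x * g x| := abs_add_le _ _
          _ ≤ _ := add_le_add e1 e2
      · have hDx : D x = 0 := indicator_of_notMem hx _
        rw [hDx, norm_zero]
        exact hdom0
  have hΦle : ∀ x, |Φ x| ≤ C * ρ x ^ 2 := by
    intro x
    by_cases hx : x ∈ P
    · have : Φ x = U x * f x ^ 2 := indicator_of_mem hx _
      rw [this, abs_mul, abs_of_nonneg (sq_nonneg (f x))]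
      exact mul_le_mul (hUb x) (h.f_sq_le x) (sq_nonneg _) hC0
    · have : Φ x = 0 := indicator_of_notMem hx _
      rw [this, abs_zero]; positivity
  have htT : Tendsto Φ atTop (𝓝 0) := by
    refine squeeze_zero_norm hΦle ?_
    have := (h.hT.pow 2).const_mul C
    simpa using this
  have htB : Tendsto Φ atBot (𝓝 0) := by
    refine squeeze_zero_norm hΦle ?_
    have := (h.hB.pow 2).const_mul C
    simpa using this
  have hint : ∫ x, D x = 0 := by
    have := integral_of_hasDerivAt_of_tendsto hder hDi htB htT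
    simpa using this
  have hint2 : ∫ x in P, (-(k ^ 2 + U x ^ 2) * ρ x * f x ^ 2 + 2 * U x * f x * g x) = 0 := by
    rw [← integral_indicator hPm]; exact hint
  have hDi2 : IntegrableOn
      (fun x => -(k ^ 2 + U x ^ 2) * ρ x * f x ^ 2 + 2 * U x * f x * g x) P :=
    (integrable_indicator_iff hPm).1 hDi
  have hkey : ∫ x in P, (k ^ 2 * (f x ^ 2 * ρ x) +
      (-(k ^ 2 + U x ^ 2) * ρ x * f x ^ 2 + 2 * U x * f x * g x)) ≤ ∫ x in P, g x ^ 2 / ρ x := by
    refine setIntegral_mono_on ((h.int_ffρ.const_mul _).integrableOn.add hDi2)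
      h.int_gg.integrableOn hPm fun x hx => ?_
    have hfx : 0 < f x := hx
    have hρx : 0 < ρ x := lt_of_lt_of_le hfx (le_trans (le_abs_self _) (h.hfρ x))
    have h1 : g x ^ 2 / ρ x - (k ^ 2 * (f x ^ 2 * ρ x) +
      (-(k ^ 2 + U x ^ 2) * ρ x * f x ^ 2 + 2 * U x * f x * g x)) =
        (g x - U x * f x * ρ x) ^ 2 / ρ x := by
      field_simp
      ring
    have h2 : 0 ≤ (g x - U x * f x * ρ x) ^ 2 / ρ x := by positivity
    linarith
  rw [integral_add (h.int_ffρ.const_mul _).integrableOn hDi2, hint2, add_zero,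
    integral_const_mul] at hkey
  exact hkey


lemma z_abs_le (x : ℝ) : |f x / ρ x| ≤ 1 := by
  rw [abs_div, abs_of_nonneg (h.ρ0 x)]
  rcases (h.ρ0 x).eq_or_lt with h0 | h0
  · rw [← h0, div_zero]; exact zero_le_one
  · rw [div_le_one h0]; exact h.hfρ x

lemma z_meas : Measurable (fun x => f x / ρ x) := h.fc.measurable.div h.hρc.measurable

/-- A bounded measurable function times `ρ ^ 3` is integrable. -/
lemma int_cube_mul (F : ℝ → ℝ) (hF : Measurable F) (hF1 : ∀ x, |F x| ≤ 1) :
    Integrable (fun x => ρ x ^ 3 * F x) := by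
  refine Integrable.mono' h.int_cube
    ((h.hρc.measurable.pow_const 3).mul hF).aestronglyMeasurable ?_
  refine Eventually.of_forall fun x => ?_
  rw [norm_mul, Real.norm_eq_abs, Real.norm_eq_abs, abs_of_nonneg (by have := h.ρ0 x; positivity)]
  calc ρ x ^ 3 * |F x| ≤ ρ x ^ 3 * 1 :=
        mul_le_mul_of_nonneg_left (hF1 x) (by have := h.ρ0 x; positivity)
    _ = ρ x ^ 3 := mul_one _

omit h in
/-- The elementary inequality behind the Hölder step. -/
lemma young (z q : ℝ) (hz : 0 ≤ z) (hq : 0 < q) :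
    108 / 49 * z ^ ((4:ℝ)/3) - 432 / 343 * z * q ≤ z ^ 2 / q ^ 2 := by
  set y : ℝ := z ^ ((1:ℝ)/3) with hy
  have hy0 : 0 ≤ y := rpow_nonneg hz _
  have hy3 : y ^ 3 = z := by
    rw [hy, ← rpow_natCast, ← rpow_mul hz]; norm_num
  have hy4 : z ^ ((4:ℝ)/3) = y ^ 4 := by
    rw [hy, ← rpow_natCast, ← rpow_mul hz]; norm_num
  rw [hy4, ← hy3]
  have h1 : (y ^ 3) ^ 2 / q ^ 2 - (108 / 49 * y ^ 4 - 432 / 343 * y ^ 3 * q) =
      y ^ 3 * ((y - 6 / 7 * q) ^ 2 * (y + 12 / 7 * q)) / q ^ 2 := by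
    field_simp
    ring
  have h2 : 0 ≤ y ^ 3 * ((y - 6 / 7 * q) ^ 2 * (y + 12 / 7 * q)) / q ^ 2 := by positivity
  linarith

/-- The inequality for the part where `f` is positive. -/
theorem half :
    π ^ 2 * ((∫ x in {x | 0 < f x}, ρ x ^ 3 * (108 / 49 * (f x / ρ x) ^ ((4:ℝ)/3))) -
      (∫ x in {x | 0 < f x}, ρ x) * ∫ x in {x | 0 < f x}, ρ x ^ 3 * (432 / 343 * (f x / ρ x))) ≤
      ∫ x in {x | 0 < f x}, g x ^ 2 / ρ x := by
  set P : Set ℝ := {x | 0 < f x} with hPdef
  have hPm : MeasurableSet P := h.measP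
  set p : ℝ := ∫ x in P, ρ x with hp
  have hp0 : 0 ≤ p := setIntegral_nonneg hPm fun x _ => h.ρ0 x
  have hzz : ∀ x, |(f x / ρ x)| ≤ 1 := h.z_abs_le
  have hi1 : Integrable (fun x => ρ x ^ 3 * (f x / ρ x)) :=
    h.int_cube_mul _ h.z_meas hzz
  have hi2' : Integrable (fun x => ρ x ^ 3 * |f x / ρ x| ^ ((4:ℝ)/3)) := by
    refine h.int_cube_mul _ ?_ ?_
    · exact (continuous_abs.measurable.comp h.z_meas).pow_const _
    · intro x
      rw [abs_of_nonneg (rpow_nonneg (abs_nonneg _) _)]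
      exact rpow_le_one (abs_nonneg _) (hzz x) (by norm_num)
  have hi2 : IntegrableOn (fun x => ρ x ^ 3 * (108 / 49 * (f x / ρ x) ^ ((4:ℝ)/3))) P := by
    have h3 : IntegrableOn (fun x => 108 / 49 * (ρ x ^ 3 * |f x / ρ x| ^ ((4:ℝ)/3))) P :=
      (hi2'.const_mul _).integrableOn
    refine h3.congr_fun (fun x hx => ?_) hPm
    have hfx : 0 < f x := hx
    have hz0 : 0 ≤ f x / ρ x := div_nonneg hfx.le (h.ρ0 x)
    simp only
    rw [abs_of_nonneg hz0]
    ring
  have hi3 : Integrable (fun x => ρ x ^ 3 * (432 / 343 * (f x / ρ x))) := by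
    have := hi1.const_mul (432 / 343)
    refine this.congr (Eventually.of_forall fun x => ?_)
    simp only
    ring
  set A : ℝ := ∫ x in P, ρ x ^ 3 * (108 / 49 * (f x / ρ x) ^ ((4:ℝ)/3)) with hA
  set B : ℝ := ∫ x in P, ρ x ^ 3 * (432 / 343 * (f x / ρ x)) with hB
  have hstep : ∀ ε : ℝ, 0 < ε → π ^ 2 * (A - (p + 2 * ε) * B) ≤ ∫ x in P, g x ^ 2 / ρ x := by
    intro ε hε
    have hq : 0 < p + 2 * ε := by linarith
    refine le_trans ?_ (h.faber_krahn ε hε)
    rw [← hPdef, ← hp, div_pow, div_mul_eq_mul_div, mul_div_assoc]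
    refine mul_le_mul_of_nonneg_left ?_ (by positivity)
    have e1 : (∫ x in P, f x ^ 2 * ρ x) / (p + 2 * ε) ^ 2 =
        ∫ x in P, f x ^ 2 * ρ x / (p + 2 * ε) ^ 2 := by
      rw [integral_div]
    have e2 : A - (p + 2 * ε) * B = ∫ x in P, (ρ x ^ 3 * (108 / 49 * (f x / ρ x) ^ ((4:ℝ)/3)) -
        (p + 2 * ε) * (ρ x ^ 3 * (432 / 343 * (f x / ρ x)))) := by
      rw [integral_sub hi2 (hi3.integrableOn.const_mul _), integral_const_mul]
    rw [e1, e2]
    refine setIntegral_mono_on (hi2.sub (hi3.integrableOn.const_mul _))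
      (h.int_ffρ.integrableOn.div_const _) hPm fun x hx => ?_
    have hfx : 0 < f x := hx
    have hρx : 0 < ρ x := lt_of_lt_of_le hfx (le_trans (le_abs_self _) (h.hfρ x))
    have hz0 : 0 ≤ f x / ρ x := div_nonneg hfx.le hρx.le
    have hy := young (f x / ρ x) (p + 2 * ε) hz0 hq
    have e3 : f x ^ 2 * ρ x / (p + 2 * ε) ^ 2 = ρ x ^ 3 * ((f x / ρ x) ^ 2 / (p + 2 * ε) ^ 2) := by
      field_simp
    rw [e3]
    have e4 : ρ x ^ 3 * (108 / 49 * (f x / ρ x) ^ ((4:ℝ)/3)) -
        (p + 2 * ε) * (ρ x ^ 3 * (432 / 343 * (f x / ρ x))) =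
        ρ x ^ 3 * (108 / 49 * (f x / ρ x) ^ ((4:ℝ)/3) - 432 / 343 * (f x / ρ x) * (p + 2 * ε)) := by
      ring
    rw [e4]
    exact mul_le_mul_of_nonneg_left hy (by positivity)
  have hlim : Tendsto (fun ε : ℝ => π ^ 2 * (A - (p + 2 * ε) * B)) (𝓝[>] 0)
      (𝓝 (π ^ 2 * (A - (p + 2 * 0) * B))) := by
    have : Continuous fun ε : ℝ => π ^ 2 * (A - (p + 2 * ε) * B) := by fun_prop
    exact this.continuousAt.tendsto.mono_left nhdsWithin_le_nhds
  have := le_of_tendsto hlim (by
    filter_upwards [self_mem_nhdsWithin] with ε hε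
    exact hstep ε hε)
  simpa using this

/-- The scalar inequality: `2 = ∫ ρ` is the total mass. -/
theorem scalar (hmass : ∫ x, ρ x = 2) :
    π ^ 2 * ((∫ x, ρ x ^ 3 * (108 / 49 * |f x / ρ x| ^ ((4:ℝ)/3) - 432 / 343 * |f x / ρ x|)) -
      216 / 343 * (((∫ x in {x | 0 < f x}, ρ x) - ∫ x in {x | f x < 0}, ρ x) *
        ∫ x, ρ x ^ 3 * (f x / ρ x))) ≤ ∫ x, g x ^ 2 / ρ x := by
  have hP := h.half
  have hN := h.neg.half
  have hset : {x | 0 < - f x} = {x | f x < 0} := by ext x; simp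
  simp only [neg_sq, neg_div] at hN
  rw [hset] at hN
  set P : Set ℝ := {x | 0 < f x} with hPdef
  set N : Set ℝ := {x | f x < 0} with hNdef
  have hPm : MeasurableSet P := h.measP
  have hNm : MeasurableSet N := (isOpen_lt h.fc continuous_const).measurableSet
  have hdisj : Disjoint P N := by
    rw [Set.disjoint_left]
    intro x hx hx'
    have h1 : 0 < f x := hx
    have h2 : f x < 0 := hx'
    linarith
  set a : ℝ := ∫ x in P, ρ x with ha
  set b : ℝ := ∫ x in N, ρ x with hb
  have hab : a + b ≤ 2 := by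
    rw [ha, hb, ← setIntegral_union hdisj hNm h.hρi.integrableOn h.hρi.integrableOn, ← hmass]
    exact setIntegral_le_integral h.hρi (Eventually.of_forall h.ρ0)
  have hzz : ∀ x, |(f x / ρ x)| ≤ 1 := h.z_abs_le
  have hi1 : Integrable (fun x => ρ x ^ 3 * (f x / ρ x)) :=
    h.int_cube_mul _ h.z_meas hzz
  have hi1a : Integrable (fun x => ρ x ^ 3 * |f x / ρ x|) :=
    h.int_cube_mul _ (continuous_abs.measurable.comp h.z_meas) fun x => by
      rw [abs_abs]; exact hzz x
  have hi2 : Integrable (fun x => ρ x ^ 3 * |f x / ρ x| ^ ((4:ℝ)/3)) := by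
    refine h.int_cube_mul _ ?_ ?_
    · exact (continuous_abs.measurable.comp h.z_meas).pow_const _
    · intro x
      rw [abs_of_nonneg (rpow_nonneg (abs_nonneg _) _)]
      exact rpow_le_one (abs_nonneg _) (hzz x) (by norm_num)
  -- rewrite the integrals over `P` and `N` as integrals with absolute values
  have hsplit : ∀ F : ℝ → ℝ, Integrable F → (∀ x, f x = 0 → F x = 0) →
      ∫ x, F x = (∫ x in P, F x) + ∫ x in N, F x := by
    intro F hF hF0
    rw [← setIntegral_union hdisj hNm hF.integrableOn hF.integrableOn]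
    rw [← integral_indicator (hPm.union hNm)]
    congr 1
    funext x
    by_cases hx : x ∈ P ∪ N
    · rw [indicator_of_mem hx]
    · rw [indicator_of_notMem hx]
      refine hF0 x ?_
      have h1 : ¬ 0 < f x := fun h' => hx (Or.inl h')
      have h2 : ¬ f x < 0 := fun h' => hx (Or.inr h')
      linarith
  have s1 := hsplit _ hi2 (fun x hx => by
    rw [hx, zero_div, abs_zero, zero_rpow (by norm_num), mul_zero])
  have s2 := hsplit _ hi1a (fun x hx => by rw [hx, zero_div, abs_zero, mul_zero])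
  have s3 := hsplit _ hi1 (fun x hx => by rw [hx, zero_div, mul_zero])
  have hzP : ∀ x ∈ P, |f x / ρ x| = f x / ρ x := fun x hx =>
    abs_of_nonneg (div_nonneg (le_of_lt hx) (h.ρ0 x))
  have hzN : ∀ x ∈ N, |f x / ρ x| = - (f x / ρ x) := fun x hx =>
    abs_of_nonpos (div_nonpos_of_nonpos_of_nonneg (le_of_lt hx) (h.ρ0 x))
  have p1 : ∫ x in P, ρ x ^ 3 * (108 / 49 * (f x / ρ x) ^ ((4:ℝ)/3)) =
      108 / 49 * ∫ x in P, ρ x ^ 3 * |f x / ρ x| ^ ((4:ℝ)/3) := by
    rw [← integral_const_mul]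
    refine setIntegral_congr_fun hPm fun x hx => ?_
    rw [hzP x hx]; ring
  have p2 : ∫ x in P, ρ x ^ 3 * (432 / 343 * (f x / ρ x)) =
      432 / 343 * ∫ x in P, ρ x ^ 3 * |f x / ρ x| := by
    rw [← integral_const_mul]
    refine setIntegral_congr_fun hPm fun x hx => ?_
    rw [hzP x hx]; ring
  have p3 : ∫ x in P, ρ x ^ 3 * (f x / ρ x) = ∫ x in P, ρ x ^ 3 * |f x / ρ x| := by
    refine setIntegral_congr_fun hPm fun x hx => ?_
    rw [hzP x hx]
  have n1 : ∫ x in N, ρ x ^ 3 * (108 / 49 * (-(f x / ρ x)) ^ ((4:ℝ)/3)) =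
      108 / 49 * ∫ x in N, ρ x ^ 3 * |f x / ρ x| ^ ((4:ℝ)/3) := by
    rw [← integral_const_mul]
    refine setIntegral_congr_fun hNm fun x hx => ?_
    rw [hzN x hx]; ring
  have n2 : ∫ x in N, ρ x ^ 3 * (432 / 343 * -(f x / ρ x)) =
      432 / 343 * ∫ x in N, ρ x ^ 3 * |f x / ρ x| := by
    rw [← integral_const_mul]
    refine setIntegral_congr_fun hNm fun x hx => ?_
    rw [hzN x hx]; ring
  have n3 : ∫ x in N, ρ x ^ 3 * (f x / ρ x) = - ∫ x in N, ρ x ^ 3 * |f x / ρ x| := by
    rw [← integral_neg]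
    refine setIntegral_congr_fun hNm fun x hx => ?_
    rw [hzN x hx]; ring
  rw [p1, p2] at hP
  rw [n1, n2] at hN
  set X1 := ∫ x in P, ρ x ^ 3 * |f x / ρ x| ^ ((4:ℝ)/3)
  set X2 := ∫ x in N, ρ x ^ 3 * |f x / ρ x| ^ ((4:ℝ)/3)
  set Y1 := ∫ x in P, ρ x ^ 3 * |f x / ρ x| with hY1
  set Y2 := ∫ x in N, ρ x ^ 3 * |f x / ρ x| with hY2
  have hY1n : 0 ≤ Y1 := setIntegral_nonneg hPm fun x _ => by have := h.ρ0 x; positivity
  have hY2n : 0 ≤ Y2 := setIntegral_nonneg hNm fun x _ => by have := h.ρ0 x; positivity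
  have htot : ∫ x, ρ x ^ 3 * (108 / 49 * |f x / ρ x| ^ ((4:ℝ)/3) - 432 / 343 * |f x / ρ x|) =
      108 / 49 * (X1 + X2) - 432 / 343 * (Y1 + Y2) := by
    rw [← s1, ← s2, ← integral_const_mul, ← integral_const_mul,
      ← integral_sub (hi2.const_mul _) (hi1a.const_mul _)]
    congr 1
    funext x
    ring
  rw [htot, s3, p3, n3]
  have hgg : (∫ x in P, g x ^ 2 / ρ x) + (∫ x in N, g x ^ 2 / ρ x) ≤ ∫ x, g x ^ 2 / ρ x := by
    rw [← setIntegral_union hdisj hNm h.int_gg.integrableOn h.int_gg.integrableOn]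
    exact setIntegral_le_integral h.int_gg
      (Eventually.of_forall fun x => div_nonneg (sq_nonneg _) (h.ρ0 x))
  refine le_trans ?_ hgg
  refine le_trans ?_ (add_le_add hP hN)
  rw [← mul_add]
  refine mul_le_mul_of_nonneg_left ?_ (by positivity)
  nlinarith [mul_nonneg hY1n (sub_nonneg.2 hab), mul_nonneg hY2n (sub_nonneg.2 hab)]

end Dom

end Pool.Helper490.LT
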